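import Pool.Agent.Helper84.AS.Defs
import Pool.Agent.Helper31.AR.QuadAvg
import Pool.Agent.Helper31.AR.EvalEquid

/-!
Port of `Pool.Agent.Helper31.AR.HalfAvg` (project AR, helper31 and others) to the box `deg A ≤ 4 n + 1`,
`deg B ≤ 6 n + 1`. The comment below is that of the original, where `6 n + 1`, `4 n + 1`, `10 n + 2` and
`4 n + a` stand for `6 n + 2`, `4 n + 2`, `10 n + 4` and `4 n + 1 + a` here.
-/

/-!
# AR-31: the average over the family for `t` generating the subfield of index `2`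

`q = card F`, `card L = q ^ (2 d)`, `v` the minimal polynomial of `t`, `deg v = d ≤ 6 n + 1`. Let
`k = IntermediateField.adjoin F {t}` (a finite field with `q ^ d` elements; `Fintype.ofFinite`), `card L = (card k) ^ 2`, and
`A(t) ∈ k`. For fixed `A`, with `a₀ ∈ k` the element with image `A(t)`: by `sum_aeval` (`N = 6 n + 1`)
`∑_{B} cub L (A(t)) (B(t)) = q ^ (6 n + 1 - d) ∑_{b ∈ k} cub L a₀ b`, which by `sum_cub_le_of_ne` is at most
`q ^ (6 n + 1 - d) q ^ d (q ^ d + 1) = q ^ (6 n + 1) (q ^ d + 1)` if `A(t) ≠ 0`, and by `sum_cub_le` at most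
`2 q ^ (6 n + 1) q ^ d` if `A(t) = 0`; there are at most `q ^ (4 n + 1 - d)` such `A` (`card_aeval_zero_le`; natural
subtraction). Sum over the `q ^ (4 n + 1)` polynomials `A`; `q ^ (4 n + 1) q ^ (6 n + 1) = q ^ (10 n + 2)`.
(`2 ≠ 0` and `3 ≠ 0` in `k`: injectivity of `F → k`.)
-/

set_option autoImplicit false

open Polynomial

namespace Pool.Agent.Helper84.AS

open Pool.Agent.Helper31.AR

variable {F : Type} [Field F] [Fintype F] {L : Type} [Field L] [Fintype L] [Algebra F L]

/-- The inner sum for fixed `A`. -/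
theorem half_inner (h2 : (2 : F) ≠ 0) (h3 : (3 : F) ≠ 0) {n : ℕ} {t : L} {v : F[X]} (hv : v.Monic)
    (hirr : Irreducible v) (ht : aeval t v = 0)
    (hL : Fintype.card L = Fintype.card F ^ (2 * v.natDegree)) (hd : v.natDegree ≤ 6 * n + 2)
    (A : F[X]) :
    (aeval t A ≠ 0 → ∑ B ∈ PN F (6 * n + 2), cub L (aeval t A) (aeval t B) ≤
      (Fintype.card F : ℤ) ^ (6 * n + 2) * ((Fintype.card F : ℤ) ^ v.natDegree + 1)) ∧
    (∑ B ∈ PN F (6 * n + 2), cub L (aeval t A) (aeval t B) ≤
      2 * (Fintype.card F : ℤ) ^ (6 * n + 2) * (Fintype.card F : ℤ) ^ v.natDegree) := by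
  classical
  have hint : IsIntegral F t := ⟨v, hv, by rwa [← aeval_def]⟩
  have hmin : minpoly F t = v := (minpoly.eq_of_irreducible_of_monic hirr ht hv).symm
  letI : Fintype (IntermediateField.adjoin F {t}) := Fintype.ofFinite _
  set k := IntermediateField.adjoin F {t} with hkdef
  have hfin : Module.finrank F k = v.natDegree := by
    rw [hkdef, IntermediateField.adjoin.finrank hint, hmin]
  have hk : Fintype.card k = Fintype.card F ^ v.natDegree := by
    rw [← hfin]
    exact Module.card_eq_pow_finrank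
  have hkL : Fintype.card L = Fintype.card k ^ 2 := by
    rw [hL, hk, ← pow_mul, mul_comm]
  have htk : t ∈ Set.range (algebraMap k L) :=
    ⟨IntermediateField.AdjoinSimple.gen F t, IntermediateField.AdjoinSimple.algebraMap_gen F t⟩
  have h2k : (2 : k) ≠ 0 := two_ne_zero_ext h2
  have h3k : (3 : k) ≠ 0 := by
    have h : algebraMap F k 3 ≠ 0 := by
      rw [Ne, map_eq_zero_iff _ (algebraMap F k).injective]
      exact h3
    rwa [map_ofNat] at h
  set a₀ : k := aeval (IntermediateField.AdjoinSimple.gen F t) A with ha₀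
  have ha : algebraMap k L a₀ = aeval t A := by
    rw [ha₀, ← aeval_algebraMap_apply, IntermediateField.AdjoinSimple.algebraMap_gen]
  have hsum := sum_aeval (k := k) (L := L) hv hirr ht hk htk hd
    (G := fun b => cub L (aeval t A) b)
  have hpow : (Fintype.card F : ℤ) ^ (6 * n + 2) =
      (Fintype.card F : ℤ) ^ (6 * n + 2 - v.natDegree) * (Fintype.card F : ℤ) ^ v.natDegree := by
    rw [← pow_add, Nat.sub_add_cancel hd]
  have hkz : (Fintype.card k : ℤ) = (Fintype.card F : ℤ) ^ v.natDegree := by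
    rw [hk]; push_cast; rfl
  constructor
  · intro hA
    have ha0 : a₀ ≠ 0 := by
      intro h
      apply hA
      rw [← ha, h, map_zero]
    rw [hsum, nsmul_eq_mul, ← ha]
    push_cast
    have h := sum_cub_le_of_ne (L := L) h2k h3k hkL ha0
    rw [hkz] at h
    rw [hpow, mul_assoc]
    exact mul_le_mul_of_nonneg_left h (by positivity)
  · rw [hsum, nsmul_eq_mul, ← ha]
    push_cast
    have h := sum_cub_le (L := L) h2k hkL a₀
    rw [hkz] at h
    rw [hpow]
    refine le_trans (mul_le_mul_of_nonneg_left h (by positivity)) (le_of_eq (by ring))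

theorem half_avg (h2 : (2 : F) ≠ 0) (h3 : (3 : F) ≠ 0) {n : ℕ} {t : L} {v : F[X]} (hv : v.Monic)
    (hirr : Irreducible v) (ht : aeval t v = 0)
    (hL : Fintype.card L = Fintype.card F ^ (2 * v.natDegree)) (hd : v.natDegree ≤ 6 * n + 2) :
    ((∑ A ∈ PN F (4 * n + 2), ∑ B ∈ PN F (6 * n + 2), cub L (aeval t A) (aeval t B) : ℤ) : ℝ) ≤
      (Fintype.card F : ℝ) ^ (10 * n + 4) * ((Fintype.card F : ℝ) ^ v.natDegree + 1) +
        2 * (Fintype.card F : ℝ) ^ (6 * n + 2) * (Fintype.card F : ℝ) ^ v.natDegree *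
          (Fintype.card F : ℝ) ^ (4 * n + 2 - v.natDegree) := by
  classical
  have h1 : ∀ A ∈ PN F (4 * n + 2), ∑ B ∈ PN F (6 * n + 2), cub L (aeval t A) (aeval t B) ≤
      (Fintype.card F : ℤ) ^ (6 * n + 2) * ((Fintype.card F : ℤ) ^ v.natDegree + 1) +
        (if aeval t A = 0 then
          2 * (Fintype.card F : ℤ) ^ (6 * n + 2) * (Fintype.card F : ℤ) ^ v.natDegree else 0) := by
    intro A _
    have h := half_inner h2 h3 hv hirr ht hL hd A
    by_cases hA : aeval t A = 0
    · rw [if_pos hA]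
      have h4 : (0 : ℤ) ≤
          (Fintype.card F : ℤ) ^ (6 * n + 2) * ((Fintype.card F : ℤ) ^ v.natDegree + 1) := by
        positivity
      linarith [h.2]
    · rw [if_neg hA, add_zero]
      exact h.1 hA
  have h4 := Finset.sum_le_sum h1
  rw [Finset.sum_add_distrib, ← Finset.sum_filter, Finset.sum_const, Finset.sum_const, card_PN,
    nsmul_eq_mul, nsmul_eq_mul] at h4
  have h5 := card_aeval_zero_le (L := L) hv hirr ht (4 * n + 2)
  have h6 : (((PN F (4 * n + 2)).filter (fun A => aeval t A = 0)).card : ℤ) ≤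
      (Fintype.card F : ℤ) ^ (4 * n + 2 - v.natDegree) := by exact_mod_cast h5
  have h7 : ∑ A ∈ PN F (4 * n + 2), ∑ B ∈ PN F (6 * n + 2), cub L (aeval t A) (aeval t B) ≤
      (Fintype.card F : ℤ) ^ (10 * n + 4) * ((Fintype.card F : ℤ) ^ v.natDegree + 1) +
        2 * (Fintype.card F : ℤ) ^ (6 * n + 2) * (Fintype.card F : ℤ) ^ v.natDegree *
          (Fintype.card F : ℤ) ^ (4 * n + 2 - v.natDegree) := by
    refine le_trans h4 ?_
    have h8 : (Fintype.card F : ℤ) ^ (10 * n + 4) =
        (Fintype.card F : ℤ) ^ (4 * n + 2) * (Fintype.card F : ℤ) ^ (6 * n + 2) := by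
      rw [← pow_add]; congr 1; ring
    rw [h8]
    have h9 := mul_le_mul_of_nonneg_right h6
      (show (0 : ℤ) ≤ 2 * (Fintype.card F : ℤ) ^ (6 * n + 2) * (Fintype.card F : ℤ) ^ v.natDegree by
        positivity)
    push_cast
    linarith
  exact_mod_cast h7

end Pool.Agent.Helper84.AS
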