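import Pool.Agent.Helper84.AS.Defs
import Pool.Agent.Helper31.AR.EvalEquid

/-!
Port of `Pool.Agent.Helper31.AR.PrimZero` (project AR, helper31 and others) to the box `deg A ≤ 4 n + 1`,
`deg B ≤ 6 n + 1`. The comment below is that of the original, where `6 n + 1`, `4 n + 1`, `10 n + 2` and
`4 n + a` stand for `6 n + 2`, `4 n + 2`, `10 n + 4` and `4 n + 1 + a` here.
-/

/-!
# AR-32: small primitive degrees

`card L = q ^ (deg v)`, `deg v ≤ 6 n + 1`: by `sum_aeval` with `k = L` (`Algebra.id`)
`∑_B cub L (A(t)) (B(t)) = q ^ (6 n + 1 - deg v) • ∑_{b ∈ L} ∑_x chi L ((x ^ 3 + A(t) x) + b)` and for every `x` the sum over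
`b ∈ L` of `chi L (z + b)` is `∑_{b} chi L b = 0` (`quadraticChar_sum_zero`, characteristic `≠ 2`).
-/

set_option autoImplicit false

open Polynomial

namespace Pool.Agent.Helper84.AS

open Pool.Agent.Helper31.AR

variable {F : Type} [Field F] [Fintype F] {L : Type} [Field L] [Fintype L] [Algebra F L]

theorem prim_zero (h2 : (2 : F) ≠ 0) {n : ℕ} {t : L} {v : F[X]} (hv : v.Monic)
    (hirr : Irreducible v) (ht : aeval t v = 0)
    (hL : Fintype.card L = Fintype.card F ^ v.natDegree) (hd : v.natDegree ≤ 6 * n + 2) :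
    ∑ A ∈ PN F (4 * n + 2), ∑ B ∈ PN F (6 * n + 2), cub L (aeval t A) (aeval t B) = 0 := by
  have h2L : ringChar L ≠ 2 := by
    intro hc
    have h1 : ((2 : ℕ) : L) = 0 := (ringChar.spec L 2).2 (by rw [hc])
    apply h2
    apply (algebraMap F L).injective
    rw [map_zero, map_ofNat]
    exact_mod_cast h1
  have hchi : ∑ z : L, chi L z = 0 := by
    classical
    unfold chi
    exact quadraticChar_sum_zero h2L
  have hcub : ∀ a : L, ∑ b : L, cub L a b = 0 := by
    intro a
    unfold cub
    rw [Finset.sum_comm]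
    apply Finset.sum_eq_zero
    intro x _
    rw [← hchi]
    exact Fintype.sum_equiv (Equiv.addLeft (x ^ 3 + a * x)) _ _ (fun b => rfl)
  apply Finset.sum_eq_zero
  intro A _
  have h3 := sum_aeval (k := L) hv hirr ht hL ⟨t, rfl⟩ hd (fun z => cub L (aeval t A) z)
  rw [h3]
  have h4 : ∑ b : L, cub L (aeval t A) (algebraMap L L b) = 0 := hcub _
  rw [h4, smul_zero]

end Pool.Agent.Helper84.AS
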