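import Pool.Agent.Helper84.AS.Defs
import Pool.Agent.Helper84.AS.Translation
import Pool.Agent.Helper31.AR.Recip

/-!
Port of `Pool.Agent.Helper31.AR.Split` (project AR, helper31 and others) to the box `deg A ≤ 4 n + 1`,
`deg B ≤ 6 n + 1`. The comment below is that of the original, where `6 n + 1`, `4 n + 1`, `10 n + 2` and
`4 n + a` stand for `6 n + 2`, `4 n + 2`, `10 n + 4` and `4 n + 1 + a` here.
-/

/-!
# AR-10: the decomposition `XS = X0 + X1`

Let `m = 6 n + 1 + a`, `h ∈ MN F D`, `w = minv v h`. As `deg h < deg v` and `v` is irreducible,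
`IsCoprime h v`. By `inn_translation` and `Phi_eq` it suffices to show that the set
`S = {k ∈ PN F (2 n + a) : (k ^ 2 w) %ₘ v ∈ PN F (4 n + a)}` is the disjoint union of the sets `kset n a D v h e`,
`e ∈ PN F (a - 2 n - 2)` (natural subtraction; `0` always belongs to `PN F _`); then split off `e = 0`
(`Finset.add_sum_erase` or `Finset.sum_erase`).

* `k ∈ S`: put `l = (k ^ 2 w) %ₘ v`. Then `h l ≡ k ^ 2` modulo `v`, so `k ^ 2 - h l = v e`. The degree of the left
  side is at most `max (2 (2 n + a - 1)) (D + 4 n + a - 1) ≤ 4 n + 2 a - 2`, so if `e ≠ 0` then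
  `deg e ≤ 4 n + 2 a - 2 - m = a - 2 n - 3`, i.e. `e ∈ PN F (a - 2 n - 2)`. And `k ^ 2 - v e = h l` is divisible by `h`
  and of degree `< D + 4 n + a`.
* Conversely `k ∈ kset n a D v h e`: `k ^ 2 - v e = h l` with `deg l < 4 n + a ≤ m`, and `l ≡ k ^ 2 w` modulo `v`, so
  `(k ^ 2 w) %ₘ v = l` and `k ∈ S`.
* Disjoint: `e` is determined by `k`: if `k ∈ kset .. e` and `k ∈ kset .. e'`, then the two `l`, `l'` are both
  `(k ^ 2 w) %ₘ v`, hence `v e = v e'`.
-/

set_option autoImplicit false

open Polynomial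

namespace Pool.Agent.Helper84.AS

open Pool.Agent.Helper31.AR

variable {F : Type} [Field F] [Fintype F]

omit [Fintype F] in
private theorem split_isCoprime {v h : F[X]} (hirr : Irreducible v) (h0 : h ≠ 0)
    (hd : h.degree < v.degree) : IsCoprime h v := by
  refine IsCoprime.symm ((Irreducible.coprime_iff_not_dvd hirr).2 ?_)
  intro hdvd
  exact absurd (degree_le_of_dvd hdvd h0) (not_le.2 hd)

omit [Fintype F] in
private theorem split_key {v h w k e : F[X]} {K D : ℕ} (hv : v.Monic) (hh : h.Monic)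
    (hD : h.natDegree = D) (hK : K ≤ v.natDegree) (hw : v ∣ w * h - 1)
    (hdvd : h ∣ k ^ 2 - v * e) (hdeg : (k ^ 2 - v * e).degree < ((K + D : ℕ) : WithBot ℕ)) :
    h * ((k ^ 2 * w) %ₘ v) = k ^ 2 - v * e ∧
      ((k ^ 2 * w) %ₘ v).degree < ((K : ℕ) : WithBot ℕ) := by
  obtain ⟨l, hl⟩ := hdvd
  obtain ⟨z, hz⟩ := hw
  have hld : l.degree < ((K : ℕ) : WithBot ℕ) := by
    by_cases hl0 : l = 0
    · rw [hl0]; simp
    · rw [hl] at hdeg
      rw [← natDegree_lt_iff_degree_lt (mul_ne_zero hh.ne_zero hl0),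
        natDegree_mul hh.ne_zero hl0, hD] at hdeg
      rw [← natDegree_lt_iff_degree_lt hl0]
      omega
  have h1 : (k ^ 2 * w) %ₘ v = l := by
    have h2 : k ^ 2 * w = l + v * (w * e + z * l) := by
      have : k ^ 2 = h * l + v * e := by rw [← hl]; ring
      rw [this]
      linear_combination l * hz
    have hlv : l.degree < v.degree := by
      refine lt_of_lt_of_le hld ?_
      rw [degree_eq_natDegree hv.ne_zero]
      exact_mod_cast hK
    have := (div_modByMonic_unique (w * e + z * l) l hv ⟨h2.symm, hlv⟩).2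
    exact this
  rw [h1]
  exact ⟨hl.symm, hld⟩

open Classical in
private theorem split_mem {n a D : ℕ} (hD : D < a) {v h : F[X]}
    (hv : v ∈ MN F (6 * n + 2 + a)) (hh : h ∈ MN F D) (hw : v ∣ minv v h * h - 1) (k : F[X])
    (hk : k ∈ PN F (2 * n + a)) :
    (k ^ 2 * minv v h) %ₘ v ∈ PN F (4 * n + 1 + a) ↔
      ∃ e ∈ PN F (a - 2 * n - 2), k ∈ kset n a D v h e := by
  have hvm := monic_of_mem_MN hv
  have hvd := natDegree_of_mem_MN hv
  have hhm := monic_of_mem_MN hh
  have hhd := natDegree_of_mem_MN hh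
  constructor
  · intro hl
    obtain ⟨z, hz⟩ := hw
    set l := (k ^ 2 * minv v h) %ₘ v with hldef
    have h1 : l + v * ((k ^ 2 * minv v h) /ₘ v) = k ^ 2 * minv v h :=
      modByMonic_add_div _ v
    obtain ⟨e, he⟩ : v ∣ k ^ 2 - h * l := by
      refine ⟨h * ((k ^ 2 * minv v h) /ₘ v) - k ^ 2 * z, ?_⟩
      linear_combination (-h) * h1 - k ^ 2 * hz
    have hkl : k ^ 2 - v * e = h * l := by rw [← he]; ring
    have hhl : (h * l).degree < ((4 * n + 1 + a + D : ℕ) : WithBot ℕ) := by
      by_cases hl0 : l = 0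
      · rw [hl0, mul_zero, degree_zero]; exact WithBot.bot_lt_coe _
      · rw [← natDegree_lt_iff_degree_lt (mul_ne_zero hhm.ne_zero hl0),
          natDegree_mul hhm.ne_zero hl0, hhd]
        rw [mem_PN, ← natDegree_lt_iff_degree_lt hl0] at hl
        omega
    refine ⟨e, ?_, ?_⟩
    · by_cases he0 : e = 0
      · rw [he0]; exact zero_mem_PN _
      · have h2 : v * e ∈ PN F (4 * n + 2 * a) := by
          rw [← he]
          apply sub_mem_PN
          · have := mul_mem_PN hk hk
            rw [pow_two]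
            refine PN_mono ?_ this
            omega
          · rw [mem_PN]
            refine lt_of_lt_of_le hhl ?_
            exact_mod_cast (by omega : 4 * n + 1 + a + D ≤ 4 * n + 2 * a)
        rw [mem_PN, ← natDegree_lt_iff_degree_lt (mul_ne_zero hvm.ne_zero he0),
          natDegree_mul hvm.ne_zero he0, hvd] at h2
        rw [mem_PN, ← natDegree_lt_iff_degree_lt he0]
        omega
    · unfold kset
      rw [Finset.mem_filter]
      refine ⟨hk, ⟨l, hkl⟩, ?_⟩
      rw [hkl]; exact hhl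
  · rintro ⟨e, -, hke⟩
    unfold kset at hke
    rw [Finset.mem_filter] at hke
    rw [mem_PN]
    exact (split_key hvm hhm hhd (by omega) hw hke.2.1 hke.2.2).2

theorem XS_eq_X0_add_X1 (ψ : AddChar F ℂ) (hψ : ψ ≠ 1) (h3 : (3 : F) ≠ 0) {n a D : ℕ} (hD : D < a)
    {v : F[X]} (hv : v ∈ MN F (6 * n + 2 + a)) (hirr : Irreducible v) :
    XS ψ (2 * n + a) D v = X0 ψ n a D v + X1 ψ n a D v := by
  classical
  have hvm := monic_of_mem_MN hv
  have hvd := natDegree_of_mem_MN hv
  unfold XS X0 X1
  rw [← Finset.sum_add_distrib]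
  refine Finset.sum_congr rfl fun h hh => ?_
  rw [← mul_add]
  congr 1
  have hhm := monic_of_mem_MN hh
  have hhd := natDegree_of_mem_MN hh
  have hcop : IsCoprime h v := by
    apply split_isCoprime hirr hhm.ne_zero
    rw [degree_of_mem_MN hh, degree_of_mem_MN hv]
    exact_mod_cast (by omega : D < 6 * n + 2 + a)
  have hw : v ∣ minv v h * h - 1 := minv_spec hcop
  rw [inn_translation ψ hψ h3 hD hv hirr hh]
  have hS : (PN F (2 * n + a)).filter (fun k => (k ^ 2 * minv v h) %ₘ v ∈ PN F (4 * n + 1 + a)) =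
      (PN F (a - 2 * n - 2)).biUnion (fun e => kset n a D v h e) := by
    ext k
    rw [Finset.mem_filter, Finset.mem_biUnion]
    constructor
    · rintro ⟨hk, hl⟩
      exact (split_mem hD hv hh hw k hk).1 hl
    · rintro ⟨e, he, hke⟩
      have hk : k ∈ PN F (2 * n + a) := by
        unfold kset at hke
        exact (Finset.mem_filter.1 hke).1
      exact ⟨hk, (split_mem hD hv hh hw k hk).2 ⟨e, he, hke⟩⟩
  rw [hS, Finset.sum_biUnion]
  · rw [Finset.add_sum_erase (PN F (a - 2 * n - 2)) (fun e => ∑ k ∈ kset n a D v h e, Phi ψ v h k)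
      (zero_mem_PN _)]
    refine Finset.sum_congr rfl fun e _ => Finset.sum_congr rfl fun k _ => ?_
    exact Phi_eq ψ hvm hhm hcop k
  · intro e _ e' _ hee
    rw [Function.onFun, Finset.disjoint_left]
    intro k hk hk'
    apply hee
    unfold kset at hk hk'
    rw [Finset.mem_filter] at hk hk'
    have h1 := (split_key hvm hhm hhd (by omega) hw hk.2.1 hk.2.2).1
    have h2 := (split_key hvm hhm hhd (by omega) hw hk'.2.1 hk'.2.2).1
    have h3' : v * e = v * e' := by linear_combination h1 - h2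
    exact mul_left_cancel₀ hvm.ne_zero h3'

end Pool.Agent.Helper84.AS
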