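import Pool.Agent.Helper84.AS.Defs
import Pool.Agent.Helper31.AR.D0Defs
import Pool.Agent.Helper31.AR.RhoBasic
import Pool.Agent.Helper31.AR.Recip
import Pool.Agent.Helper84.AS.KsetZero

/-!
Port of `Pool.Agent.Helper31.AR.Factor` (project AR, helper31 and others) to the box `deg A ≤ 4 n + 1`,
`deg B ≤ 6 n + 1`. The comment below is that of the original, where `6 n + 1`, `4 n + 1`, `10 n + 2` and
`4 n + a` stand for `6 n + 2`, `4 n + 2`, `10 n + 4` and `4 n + 1 + a` here.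
-/

/-!
# AR-13: factorization of the sum over `kset` for `e = 0`

Put `m = 6 n + 1 + a`, `h = c s ^ 2`, `T = (4 n + a - γ + 1) / 2`, `Z = (4 n + a - D + 1) / 2`, so `T = Z + σ`. By
`mem_kset_zero` the sum is `∑_{t ∈ PN F T} Phi ψ v h (c s t)` (`t ↦ c s t` is injective).

With `w = minv (h ^ 2) v` (`h ^ 2 ∣ w v - 1`; `IsCoprime v (h ^ 2)`):
`rho (h ^ 2 * v) ((c s t) ^ 3) = rho (s v) (c t ^ 3)` because `h ^ 2 v = (s v) (c ^ 2 s ^ 3)` and
`(c s t) ^ 3 = (c t ^ 3) (c ^ 2 s ^ 3)` (`rho_mul_mul`), and `rho (h ^ 2) ((c s t) ^ 3 w) = rho s (c t ^ 3 w) =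
rho s (c t ^ 3 minv s v)` (`h ^ 2 = s (c ^ 2 s ^ 3)`; `s ∣ w - minv s v` by `minv_congr`).

Write `t = s z + t₀`, `z ∈ PN F Z`, `t₀ ∈ PN F σ` (division with remainder by `s`: bijection
`PN F Z × PN F σ → PN F T`). Then `rho s (c t ^ 3 w) = rho s (c t₀ ^ 3 w)` and
`c t ^ 3 = c s ^ 3 z ^ 3 + 3 c s ^ 2 z ^ 2 t₀ + 3 c s z t₀ ^ 2 + c t₀ ^ 3`, so
`rho (s v) (c t ^ 3) = rho v (c s ^ 2 z ^ 3) + rho v (3 c s z ^ 2 t₀) + rho v (3 c z t₀ ^ 2) + rho (s v) (c t₀ ^ 3)`.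
The last three terms vanish (`rho_eq_zero`): if `z`, `t₀` are nonzero the degrees are
`≤ γ + σ + 2 (Z - 1) + (σ - 1) = D + 2 Z - 3 ≤ 4 n + a - 2 < m - 1`,
`≤ γ + (Z - 1) + 2 (σ - 1) ≤ D + Z - 3 < m - 1` (`D + Z ≤ (4 n + a + D + 1) / 2 ≤ 2 n + a`) and
`≤ γ + 3 (σ - 1) < σ + m - 1`. Hence `Phi = ψ (rho v (h z ^ 3)) * ψ (-(rho s (c t₀ ^ 3 minv s v)))` and the double sum
factors.
-/

set_option autoImplicit false

open Polynomial

namespace Pool.Agent.Helper84.AS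

open Pool.Agent.Helper31.AR

variable {F : Type} [Field F] [Fintype F]

private lemma sum_PN_split {E : Type*} [AddCommMonoid E] {s : F[X]} (hs : s.Monic) {σ : ℕ}
    (hσ : s.natDegree = σ) (Z : ℕ) (G : F[X] → E) :
    ∑ t ∈ PN F (Z + σ), G t = ∑ p ∈ PN F Z ×ˢ PN F σ, G (p.2 + s * p.1) := by
  refine Finset.sum_bij' (fun f _ => (f /ₘ s, f %ₘ s)) (fun p _ => p.2 + s * p.1) ?_ ?_ ?_ ?_ ?_
  · intro f hf
    rw [Finset.mem_product]
    refine ⟨?_, ?_⟩
    · change f /ₘ s ∈ PN F Z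
      by_cases h0 : f /ₘ s = 0
      · rw [h0]
        exact zero_mem_PN _
      · have h1 : ¬ f.degree < s.degree := fun h => h0 ((divByMonic_eq_zero_iff hs).2 h)
        have hf0 : f ≠ 0 := by
          rintro rfl
          rw [zero_divByMonic] at h0
          exact h0 rfl
        have h2 : s.natDegree ≤ f.natDegree := natDegree_le_natDegree (not_lt.1 h1)
        rw [mem_PN, ← natDegree_lt_iff_degree_lt hf0] at hf
        rw [mem_PN, ← natDegree_lt_iff_degree_lt h0, natDegree_divByMonic f hs]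
        omega
    · change f %ₘ s ∈ PN F σ
      rw [mem_PN, ← hσ, ← degree_eq_natDegree hs.ne_zero]
      exact degree_modByMonic_lt f hs
  · intro p hp
    rw [Finset.mem_product] at hp
    refine add_mem_PN (PN_mono (Nat.le_add_left _ _) hp.2) ?_
    by_cases h0 : p.1 = 0
    · rw [h0, mul_zero]
      exact zero_mem_PN _
    · have h2 := hp.1
      rw [mem_PN, ← natDegree_lt_iff_degree_lt h0] at h2
      rw [mem_PN, ← natDegree_lt_iff_degree_lt (mul_ne_zero hs.ne_zero h0), hs.natDegree_mul' h0]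
      omega
  · intro f _
    exact modByMonic_add_div f s
  · intro p hp
    rw [Finset.mem_product] at hp
    have h2 := hp.2
    rw [mem_PN, ← hσ, ← degree_eq_natDegree hs.ne_zero] at h2
    obtain ⟨h3, h4⟩ := div_modByMonic_unique p.1 p.2 hs ⟨rfl, h2⟩
    exact Prod.ext h3 h4
  · intro f _
    change G f = G (f %ₘ s + s * (f /ₘ s))
    rw [modByMonic_add_div]

private lemma rho_zero_of_mem {M f : F[X]} (hM : M.Monic) (hf : f ∈ PN F (M.natDegree - 1)) :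
    rho M f = 0 := rho_eq_zero hM ((mem_PN _ _).1 hf)

private lemma MN_sub_PN {m : ℕ} {c : F[X]} (hc : c ∈ MN F m) : c ∈ PN F (m + 1) := by
  rw [mem_PN, degree_of_mem_MN hc]
  exact_mod_cast Nat.lt_succ_self m

theorem sum_kset_zero (ψ : AddChar F ℂ) {n a D γ σ : ℕ} (hD : D < a) (hγ : γ + 2 * σ = D)
    {v c s : F[X]} (hv : v ∈ MN F (6 * n + 2 + a)) (hc : c ∈ MN F γ) (hsq : Squarefree c)
    (hs : s ∈ MN F σ) (hcv : IsCoprime c v) (hsv : IsCoprime s v) :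
    ∑ k ∈ kset n a D v (c * s ^ 2) 0, Phi ψ v (c * s ^ 2) k =
      Aint ψ ((4 * n + 1 + a - D + 1) / 2) v (c * s ^ 2) * Cs ψ v c s := by
  classical
  have hcm := monic_of_mem_MN hc
  have hsm := monic_of_mem_MN hs
  have hvm := monic_of_mem_MN hv
  have hsd := natDegree_of_mem_MN hs
  have hvd := natDegree_of_mem_MN hv
  have hcs0 : c * s ≠ 0 := mul_ne_zero hcm.ne_zero hsm.ne_zero
  set Z := (4 * n + 1 + a - D + 1) / 2 with hZ
  have hT : (4 * n + 1 + a - γ + 1) / 2 = Z + σ := by omega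
  have hcop : IsCoprime v ((c * s ^ 2) ^ 2) := (hcv.mul_left (hsv.pow_left)).pow_left.symm
  have hw : s ∣ minv ((c * s ^ 2) ^ 2) v - minv s v := by
    apply minv_congr hsv.symm
    have h1 : (c * s ^ 2) ^ 2 ∣ minv ((c * s ^ 2) ^ 2) v * v - 1 := minv_spec hcop
    exact (Dvd.intro (c ^ 2 * s ^ 3) (by ring)).trans h1
  have hPhi : ∀ z ∈ PN F Z, ∀ t0 ∈ PN F σ, Phi ψ v (c * s ^ 2) (c * s * (t0 + s * z)) =
      ψ (rho v (c * s ^ 2 * z ^ 3)) * ψ (-(rho s (c * t0 ^ 3 * minv s v))) := by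
    intro z hz t0 ht0
    unfold Phi
    rw [← AddChar.map_add_eq_mul]
    congr 1
    have e1 : (c * s ^ 2) ^ 2 * v = (v * s) * (c ^ 2 * s ^ 3) := by ring
    have e2 : (c * s * (t0 + s * z)) ^ 3 = (c * (t0 + s * z) ^ 3) * (c ^ 2 * s ^ 3) := by ring
    have hN : (c ^ 2 * s ^ 3).Monic := (hcm.pow 2).mul (hsm.pow 3)
    have e3 : rho ((c * s ^ 2) ^ 2 * v) ((c * s * (t0 + s * z)) ^ 3) =
        rho (v * s) (c * (t0 + s * z) ^ 3) := by
      rw [e1, e2, rho_mul_mul (hvm.mul hsm) hN]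
    have e4 : (c * s ^ 2) ^ 2 = s * (c ^ 2 * s ^ 3) := by ring
    have e5 : rho ((c * s ^ 2) ^ 2) ((c * s * (t0 + s * z)) ^ 3 * minv ((c * s ^ 2) ^ 2) v) =
        rho s (c * t0 ^ 3 * minv s v) := by
      have e6 : (c * s * (t0 + s * z)) ^ 3 * minv ((c * s ^ 2) ^ 2) v =
          (c * (t0 + s * z) ^ 3 * minv ((c * s ^ 2) ^ 2) v) * (c ^ 2 * s ^ 3) := by ring
      rw [e6]
      have e7 : rho ((c * s ^ 2) ^ 2) ((c * (t0 + s * z) ^ 3 * minv ((c * s ^ 2) ^ 2) v) *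
          (c ^ 2 * s ^ 3)) = rho s (c * (t0 + s * z) ^ 3 * minv ((c * s ^ 2) ^ 2) v) := by
        nth_rewrite 1 [e4]
        exact rho_mul_mul hsm hN _
      rw [e7]
      apply rho_congr hsm
      obtain ⟨u, hu⟩ := hw
      refine ⟨c * (t0 + s * z) ^ 3 * u +
        c * (3 * t0 ^ 2 * z + 3 * t0 * s * z ^ 2 + s ^ 2 * z ^ 3) * minv s v, ?_⟩
      linear_combination (c * (t0 + s * z) ^ 3) * hu
    rw [e3, e5]
    have e8 : c * (t0 + s * z) ^ 3 = c * t0 ^ 3 + (C 3 * (c * z * (t0 * t0))) * s +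
        (C 3 * (c * s * (z * z) * t0)) * s + (c * s ^ 2 * z ^ 3) * s := by
      have h3 : (C (3 : F) : F[X]) = 3 := rfl
      rw [h3]
      ring
    have hc1 := MN_sub_PN hc
    have hs1 := MN_sub_PN hs
    have z1 : rho (v * s) (c * t0 ^ 3) = 0 := by
      apply rho_zero_of_mem (hvm.mul hsm)
      rw [hvm.natDegree_mul hsm, hvd, hsd]
      have h1 : c * t0 ^ 3 = c * (t0 * t0 * t0) := by ring
      rw [h1]
      refine PN_mono ?_ (mul_mem_PN hc1 (mul_mem_PN (mul_mem_PN ht0 ht0) ht0))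
      omega
    have z2 : rho v (C 3 * (c * z * (t0 * t0))) = 0 := by
      apply rho_zero_of_mem hvm
      rw [hvd]
      apply C_mul_mem_PN
      refine PN_mono ?_ (mul_mem_PN (mul_mem_PN hc1 hz) (mul_mem_PN ht0 ht0))
      omega
    have z3 : rho v (C 3 * (c * s * (z * z) * t0)) = 0 := by
      apply rho_zero_of_mem hvm
      rw [hvd]
      apply C_mul_mem_PN
      refine PN_mono ?_ (mul_mem_PN (mul_mem_PN (mul_mem_PN hc1 hs1) (mul_mem_PN hz hz)) ht0)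
      omega
    rw [e8, rho_add, rho_add, rho_add, rho_mul_mul hvm hsm, rho_mul_mul hvm hsm,
      rho_mul_mul hvm hsm, z1, z2, z3]
    ring
  have h1 : ∑ k ∈ kset n a D v (c * s ^ 2) 0, Phi ψ v (c * s ^ 2) k =
      ∑ t ∈ PN F (Z + σ), Phi ψ v (c * s ^ 2) (c * s * t) := by
    symm
    refine Finset.sum_bij (fun t _ => c * s * t) ?_ ?_ ?_ ?_
    · intro t ht
      rw [← hT] at ht
      exact (mem_kset_zero hD hγ hc hsq hs _).2 ⟨t, ht, rfl⟩
    · intro t _ t' _ h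
      exact mul_left_cancel₀ hcs0 h
    · intro k hk
      obtain ⟨t, ht, rfl⟩ := (mem_kset_zero hD hγ hc hsq hs k).1 hk
      rw [hT] at ht
      exact ⟨t, ht, rfl⟩
    · intro t _
      rfl
  rw [h1, sum_PN_split hsm hsd Z, Finset.sum_product]
  unfold Aint Cs
  rw [hsd, Finset.sum_mul_sum]
  refine Finset.sum_congr rfl fun z hz => ?_
  refine Finset.sum_congr rfl fun t0 ht0 => ?_
  exact hPhi z hz t0 ht0

end Pool.Agent.Helper84.AS
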