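import Pool.Agent.Helper84.AS.Defs
import Pool.Agent.Helper31.AR.SqClass

/-!
Port of `Pool.Agent.Helper31.AR.KsetBound` (project AR, helper31 and others) to the box `deg A ≤ 4 n + 1`,
`deg B ≤ 6 n + 1`. The comment below is that of the original, where `6 n + 1`, `4 n + 1`, `10 n + 2` and
`4 n + a` stand for `6 n + 2`, `4 n + 2`, `10 n + 4` and `4 n + 1 + a` here.
-/

/-!
# AR-43: the size of `kset` for `e ≠ 0`

`e ≠ 0` and `e ∈ PN F (a - 2 n - 2)` force `a ≥ 2 n + 3`. Let `ε = deg e ≤ a - 2 n - 3`, `m = 6 n + 1 + a`, `W = 4 n + a`, `T = dmax F (12 n)`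
(`(dv h).card ≤ T`). `deg (v e) = m + ε`.

* Case `m + ε ≥ W + D`. For `k ∈ kset`: `deg (k ^ 2 - v e) < W + D ≤ deg (v e)`, so `deg (k ^ 2) = m + ε = 2 b`, `b = deg k`. (If the set is empty
  nothing to prove.) For `k, k' ∈ kset` `(k - k')(k + k') = (k ^ 2 - v e) - (k' ^ 2 - v e) ∈ PN F (W + D)`. `b ≤ 2 n + a - 1 ≤ W`. By `card_ball_le`
  (with `W + D` in place of `W`) `card ≤ 2 T Sq(e) q ^ (W + D - b - D) = 2 T Sq(e) q ^ (W - b)`, and
  `W - b + ε = W - b + 2 b - m = b - 2 n - 1 ≤ a - 2`.
* Case `m + ε < W + D`. Then `deg (k ^ 2) < W + D`, so `k ∈ PN F ((W + D + 1) / 2)`, and `D ≤ (W + D + 1) / 2`. By `card_sq_class_le`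
  `card ≤ T Sq(e) q ^ ((W + D + 1) / 2 - D)`. As `ε ≤ W + D - m - 1 = D - 2 n - 2`:
  `(W + D + 1) / 2 - D + ε ≤ (4 n + a + D + 1) / 2 - 2 n - 2 ≤ (2 n + a) - 2 n - 2 = a - 2`.
-/

set_option autoImplicit false

open Polynomial

namespace Pool.Agent.Helper84.AS

open Pool.Agent.Helper31.AR

variable {F : Type} [Field F] [Fintype F]

theorem card_kset_le (h2 : (2 : F) ≠ 0) {n a D : ℕ} (ha : a ≤ 4 * n) (hD : D < a) {v h e : F[X]}
    (hv : v ∈ MN F (6 * n + 2 + a)) (hh : h ∈ MN F D) (hc : IsCoprime v h) (he : e ≠ 0)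
    (heE : e ∈ PN F (a - 2 * n - 2)) :
    ((kset n a D v h e).card : ℝ) * (Fintype.card F : ℝ) ^ e.natDegree ≤
      2 * (dmax F (12 * n) : ℝ) * (Sq e : ℝ) * (Fintype.card F : ℝ) ^ (a - 2) := by
  classical
  have hhm := monic_of_mem_MN hh
  have hhd := natDegree_of_mem_MN hh
  have hvm := monic_of_mem_MN hv
  have hvd := natDegree_of_mem_MN hv
  -- degree of e
  have hε : e.natDegree + 2 * n + 3 ≤ a := by
    rw [mem_PN, ← natDegree_lt_iff_degree_lt he] at heE
    omega
  have hdv : (dv h).card ≤ dmax F (12 * n) := card_dv_le hhm.ne_zero (by omega)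
  have hq : 0 < Fintype.card F := Fintype.card_pos
  have hve0 : v * e ≠ 0 := mul_ne_zero hvm.ne_zero he
  have hved : (v * e).natDegree = 6 * n + 2 + a + e.natDegree := by
    rw [natDegree_mul hvm.ne_zero he, hvd]
  have hmem : ∀ k ∈ kset n a D v h e, k ∈ PN F (2 * n + a) ∧ h ∣ k ^ 2 - v * e ∧
      k ^ 2 - v * e ∈ PN F (4 * n + 1 + a + D) := by
    intro k hk
    unfold kset at hk
    rw [Finset.mem_filter] at hk
    exact ⟨hk.1, hk.2.1, (mem_PN _ _).2 hk.2.2⟩
  -- the statement for natural numbers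
  suffices hnat : (kset n a D v h e).card * Fintype.card F ^ e.natDegree ≤
      2 * dmax F (12 * n) * Sq e * Fintype.card F ^ (a - 2) by
    have := (Nat.cast_le (α := ℝ)).2 hnat
    push_cast at this
    exact this
  rcases Finset.eq_empty_or_nonempty (kset n a D v h e) with hempty | ⟨k₀, hk₀⟩
  · rw [hempty]
    simp
  by_cases hcase : 4 * n + 1 + a + D ≤ 6 * n + 2 + a + e.natDegree
  · -- large degree
    have hdeg : ∀ k ∈ kset n a D v h e, 2 * k.natDegree = 6 * n + 2 + a + e.natDegree := by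
      intro k hk
      obtain ⟨_, _, h3⟩ := hmem k hk
      have h4 : (k ^ 2).natDegree = (v * e).natDegree := by
        have h5 : k ^ 2 = v * e + (k ^ 2 - v * e) := by ring
        have h6 : (k ^ 2 - v * e).degree < (v * e).degree := by
          rw [mem_PN] at h3
          refine lt_of_lt_of_le h3 ?_
          rw [degree_eq_natDegree hve0, hved]
          exact_mod_cast hcase
        have h7 : (k ^ 2).degree = (v * e).degree := by
          conv_lhs => rw [h5]
          exact degree_add_eq_left_of_degree_lt h6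
        exact natDegree_eq_of_degree_eq h7
      rw [natDegree_pow, hved] at h4
      exact h4
    have h0 := hdeg k₀ hk₀
    have hb1 : k₀.natDegree < 2 * n + a := by
      have h3 := (hmem k₀ hk₀).1
      rwa [mem_PN_iff_natDegree (by omega)] at h3
    have hcard := card_ball_le h2 hhm hc he (b := k₀.natDegree) (W := 4 * n + 1 + a + D) (by omega) (kset n a D v h e)
      (fun k hk => (hmem k hk).2.1)
      (fun k hk => by have := hdeg k hk; omega)
      (fun k hk k' hk' => by
        have h3 := sub_mem_PN (hmem k hk).2.2 (hmem k' hk').2.2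
        have h4 : (k - k') * (k + k') = k ^ 2 - v * e - (k' ^ 2 - v * e) := by ring
        rw [h4]
        exact h3)
    rw [hhd] at hcard
    calc (kset n a D v h e).card * Fintype.card F ^ e.natDegree
        ≤ (2 * (dv h).card * Sq e * Fintype.card F ^ (4 * n + 1 + a + D - k₀.natDegree - D)) * Fintype.card F ^ e.natDegree :=
          Nat.mul_le_mul_right _ hcard
      _ = (2 * (dv h).card * Sq e) * Fintype.card F ^ (4 * n + 1 + a + D - k₀.natDegree - D + e.natDegree) := by
          rw [pow_add]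
          ring
      _ ≤ (2 * dmax F (12 * n) * Sq e) * Fintype.card F ^ (a - 2) := by
          refine Nat.mul_le_mul ?_ (Nat.pow_le_pow_right hq (by omega))
          exact Nat.mul_le_mul_right _ (Nat.mul_le_mul_left _ hdv)
  · -- small degree
    have hN : ∀ k ∈ kset n a D v h e, k ∈ PN F ((4 * n + 1 + a + D + 1) / 2) := by
      intro k hk
      obtain ⟨_, _, h3⟩ := hmem k hk
      have h4 : k ^ 2 ∈ PN F (4 * n + 1 + a + D) := by
        have h5 : k ^ 2 = v * e + (k ^ 2 - v * e) := by ring
        rw [h5]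
        refine add_mem_PN ?_ h3
        rw [mem_PN_iff_natDegree (by omega), hved]
        omega
      rw [mem_PN_iff_natDegree (by omega), natDegree_pow] at h4
      rw [mem_PN_iff_natDegree (by omega)]
      omega
    have hcard := card_sq_class_le h2 hhm hc he (N := (4 * n + 1 + a + D + 1) / 2) (by omega) (kset n a D v h e)
      (fun k hk => (hmem k hk).2.1) (fun k hk k' hk' => sub_mem_PN (hN k hk) (hN k' hk'))
    rw [hhd] at hcard
    calc (kset n a D v h e).card * Fintype.card F ^ e.natDegree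
        ≤ ((dv h).card * Sq e * Fintype.card F ^ ((4 * n + 1 + a + D + 1) / 2 - D)) * Fintype.card F ^ e.natDegree :=
          Nat.mul_le_mul_right _ hcard
      _ = ((dv h).card * Sq e) * Fintype.card F ^ ((4 * n + 1 + a + D + 1) / 2 - D + e.natDegree) := by
          rw [pow_add]
          ring
      _ ≤ (2 * dmax F (12 * n) * Sq e) * Fintype.card F ^ (a - 2) := by
          refine Nat.mul_le_mul ?_ (Nat.pow_le_pow_right hq (by omega))
          refine Nat.mul_le_mul_right _ ?_
          omega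

end Pool.Agent.Helper84.AS
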