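import Pool.Agent.Helper84.AS.Defs
import Pool.Agent.Helper31.AR.DivCount

/-!
Port of `Pool.Agent.Helper31.AR.CountRne` (project AR, helper31 and others) to the box `deg A ≤ 4 n + 1`,
`deg B ≤ 6 n + 1`. The comment below is that of the original, where `6 n + 1`, `4 n + 1`, `10 n + 2` and
`4 n + a` stand for `6 n + 2`, `4 n + 2`, `10 n + 4` and `4 n + 1 + a` here.
-/

/-!
# AR-41: the tuples with `R ≠ 0`

Let `m = 6 n + 1 + a`, `K = 2 n + a`, `E = a - 2 n - 2`, `r = 2 D + a - 2 j - 6 n - 3`, `T = dmax F (12 n)`, `h = d η`, `h' = d η'`,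
`N = d η η'`. If `E = 0` the left side is `0` (empty sum); so `a ≥ 2 n + 3`. Let `v` be counted by `cntR .. R`: `h ∣ k ^ 2 - v e`, `h' ∣ k' ^ 2 - v e'`,
`N ∣ v ^ 2 R - (k ^ 3 η' ^ 2 - k' ^ 3 η ^ 2)`, `v` coprime to `h` and `h'`. Modulo `η`: `v ^ 2 R ≡ k ^ 3 η' ^ 2`, `k ^ 2 ≡ v e`, so
`v ^ 2 k R ≡ k ^ 4 η' ^ 2 ≡ v ^ 2 e ^ 2 η' ^ 2` and `η ∣ k R - e ^ 2 η' ^ 2`. Modulo `η'`: `v ^ 2 R ≡ - k' ^ 3 η ^ 2`, so
`η' ∣ k' R + e' ^ 2 η ^ 2`. Hence for fixed `j, d, η, η', e, e'` and `R ∈ (PN F r).erase 0`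
`∑_k ∑_k' cntR ≤ #{k ∈ PN F K : η ∣ k R - e ^ 2 η' ^ 2} #{k' : η' ∣ k' R + e' ^ 2 η ^ 2} max #{v ∈ MN F m : h ∣ k ^ 2 - v e, h' ∣ k' ^ 2 - v e'}
≤ q ^ (gdeg R η + K - (D - j)) q ^ (gdeg R η' + K - (D - j)) q ^ (gdeg e h + gdeg e' h' + m - (2 D - j))`
(`D - j ≤ K`, `2 D - j ≤ m`). Sum over `e`, `e'` (`sum_gdeg_le`, `deg h = D ≤ 12 n`): factor `(T q ^ E) ^ 2`; then over `η`, `η'`
(drop the coprimality; `sum_gdeg_MN_le`, `deg R ≤ 12 n`): factor `(T q ^ (D - j)) ^ 2`; over `d`: `q ^ j`; over `R`: `≤ q ^ r`, only if `r ≥ 1`, in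
which case `r = 2 D + a - 2 j - 6 n - 3` exactly. The exponent is
`j + r + 2 (D - j) + 2 E + 2 (K - D + j) + m - 2 D + j = 6 a - 6`. Sum over `j ≤ D`: `≤ (D + 1) T ^ 4 q ^ (6 a - 6)`.
-/

set_option autoImplicit false

open Polynomial

namespace Pool.Agent.Helper84.AS

open Pool.Agent.Helper31.AR

variable {F : Type} [Field F] [Fintype F]

private lemma crn_dvd {v k k' e e' R d η η' : F[X]} (h1 : d * η ∣ k ^ 2 - v * e)
    (h2 : d * η' ∣ k' ^ 2 - v * e') (hv : IsCoprime v (d * η)) (hv' : IsCoprime v (d * η'))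
    (h3 : d * η * η' ∣ v ^ 2 * R - (k ^ 3 * η' ^ 2 - k' ^ 3 * η ^ 2)) :
    η ∣ k * R - e ^ 2 * η' ^ 2 ∧ η' ∣ k' * R - (-(e' ^ 2 * η ^ 2)) := by
  constructor
  · have a1 : η ∣ k ^ 2 - v * e := dvd_trans (Dvd.intro_left d rfl) h1
    have a2 : η ∣ v ^ 2 * R - (k ^ 3 * η' ^ 2 - k' ^ 3 * η ^ 2) :=
      dvd_trans ⟨d * η', by ring⟩ h3
    have a3 : η ∣ v ^ 2 * (k * R - e ^ 2 * η' ^ 2) := by
      have e1 : v ^ 2 * (k * R - e ^ 2 * η' ^ 2) =
          k * (v ^ 2 * R - (k ^ 3 * η' ^ 2 - k' ^ 3 * η ^ 2)) +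
          (k ^ 2 - v * e) * ((k ^ 2 + v * e) * η' ^ 2) - η * (k * k' ^ 3 * η) := by ring
      rw [e1]
      exact dvd_sub (dvd_add (Dvd.dvd.mul_left a2 k) (Dvd.dvd.mul_right a1 _)) (Dvd.intro _ rfl)
    have a4 : IsCoprime η (v ^ 2) := (hv.of_mul_right_right).symm.pow_right
    exact a4.dvd_of_dvd_mul_left a3
  · have a1 : η' ∣ k' ^ 2 - v * e' := dvd_trans (Dvd.intro_left d rfl) h2
    have a2 : η' ∣ v ^ 2 * R - (k ^ 3 * η' ^ 2 - k' ^ 3 * η ^ 2) :=
      dvd_trans ⟨d * η, by ring⟩ h3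
    have a3 : η' ∣ v ^ 2 * (k' * R - (-(e' ^ 2 * η ^ 2))) := by
      have e1 : v ^ 2 * (k' * R - (-(e' ^ 2 * η ^ 2))) =
          k' * (v ^ 2 * R - (k ^ 3 * η' ^ 2 - k' ^ 3 * η ^ 2)) -
          (k' ^ 2 - v * e') * ((k' ^ 2 + v * e') * η ^ 2) + η' * (k' * k ^ 3 * η') := by ring
      rw [e1]
      exact dvd_add (dvd_sub (Dvd.dvd.mul_left a2 k') (Dvd.dvd.mul_right a1 _)) (Dvd.intro _ rfl)
    have a4 : IsCoprime η' (v ^ 2) := (hv'.of_mul_right_right).symm.pow_right
    exact a4.dvd_of_dvd_mul_left a3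

open Classical in
private lemma crn_PN_zero : (PN F 0).erase 0 = ∅ := by
  rw [Finset.eq_empty_iff_forall_notMem]
  intro f hf
  rw [Finset.mem_erase, mem_PN] at hf
  apply hf.1
  have h := hf.2
  rw [Nat.cast_zero] at h
  by_contra h0
  have := Polynomial.zero_le_degree_iff.mpr h0
  exact absurd h (not_lt.mpr this)

open Classical in
private lemma crn_inner {n a D j : ℕ} (ha : a ≤ 4 * n) (hD : D < a) (hj : j ≤ D)
    {d η η' : F[X]} (hd : d ∈ MN F j) (hη : η ∈ MN F (D - j)) (hη' : η' ∈ MN F (D - j))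
    (hcop : IsCoprime η η') {e e' R : F[X]} (he : e ≠ 0) (he' : e' ≠ 0) (hR : R ≠ 0) :
    ∑ k ∈ PN F (2 * n + a), ∑ k' ∈ PN F (2 * n + a), cntR n a D d η η' k e k' e' R ≤
      Fintype.card F ^ (gdeg R η + (2 * n + a) - (D - j)) *
        (Fintype.card F ^ (gdeg R η' + (2 * n + a) - (D - j)) *
        Fintype.card F ^ (gdeg e (d * η) + gdeg e' (d * η') + (6 * n + 2 + a) - (2 * D - j))) := by
  have dd := monic_of_mem_MN hd
  have dη := monic_of_mem_MN hη
  have dη' := monic_of_mem_MN hη'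
  have nd := natDegree_of_mem_MN hd
  have nη := natDegree_of_mem_MN hη
  have nη' := natDegree_of_mem_MN hη'
  have nN : (d * η * η').natDegree = 2 * D - j := by
    rw [(dd.mul dη).natDegree_mul dη', dd.natDegree_mul dη, nd, nη, nη']
    omega
  set Bd := Fintype.card F ^ (gdeg e (d * η) + gdeg e' (d * η') + (6 * n + 2 + a) - (2 * D - j))
    with hBd
  have hle : ∀ k k' : F[X], cntR n a D d η η' k e k' e' R ≤
      if η ∣ k * R - e ^ 2 * η' ^ 2 then (if η' ∣ k' * R - (-(e' ^ 2 * η ^ 2)) then Bd else 0)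
        else 0 := by
    intro k k'
    by_cases hc : cntR n a D d η η' k e k' e' R = 0
    · rw [hc]; exact Nat.zero_le _
    · have hne : ((vset n a D (d * η) k e (d * η') k' e').filter
          (fun v => d * η * η' ∣ v ^ 2 * R - (k ^ 3 * η' ^ 2 - k' ^ 3 * η ^ 2))).Nonempty := by
        rw [← Finset.card_pos]
        exact Nat.pos_of_ne_zero hc
      obtain ⟨v, hv⟩ := hne
      rw [Finset.mem_filter] at hv
      obtain ⟨hv1, hv2⟩ := hv
      unfold vset at hv1
      rw [Finset.mem_filter] at hv1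
      obtain ⟨-, c1, c2, c3, c4⟩ := hv1
      unfold kset at c3 c4
      rw [Finset.mem_filter] at c3 c4
      obtain ⟨g1, g2⟩ := crn_dvd c3.2.1 c4.2.1 c1 c2 hv2
      rw [if_pos g1, if_pos g2]
      have h5 := card_two_residues_le dd dη dη' hcop he he' k k' (m := 6 * n + 2 + a)
        (by rw [nN]; omega)
      rw [nN] at h5
      refine le_trans (Finset.card_le_card ?_) h5
      intro w hw
      rw [Finset.mem_filter] at hw
      obtain ⟨hw1, -⟩ := hw
      unfold vset at hw1
      rw [Finset.mem_filter] at hw1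
      obtain ⟨b0, b1, b2, b3, b4⟩ := hw1
      unfold kset at b3 b4
      rw [Finset.mem_filter] at b3 b4
      rw [Finset.mem_filter]
      exact ⟨b0, b3.2.1, b4.2.1⟩
  calc ∑ k ∈ PN F (2 * n + a), ∑ k' ∈ PN F (2 * n + a), cntR n a D d η η' k e k' e' R
      ≤ ∑ k ∈ PN F (2 * n + a), ∑ k' ∈ PN F (2 * n + a),
        (if η ∣ k * R - e ^ 2 * η' ^ 2 then (if η' ∣ k' * R - (-(e' ^ 2 * η ^ 2)) then Bd else 0)
        else 0) := Finset.sum_le_sum fun k _ => Finset.sum_le_sum fun k' _ => hle k k'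
    _ = ∑ k ∈ (PN F (2 * n + a)).filter (fun k => η ∣ k * R - e ^ 2 * η' ^ 2),
          ∑ k' ∈ (PN F (2 * n + a)).filter (fun k' => η' ∣ k' * R - (-(e' ^ 2 * η ^ 2))), Bd := by
        rw [Finset.sum_filter]
        apply Finset.sum_congr rfl
        intro k _
        by_cases h : η ∣ k * R - e ^ 2 * η' ^ 2
        · simp only [if_pos h]
          rw [Finset.sum_filter]
        · simp only [if_neg h]
          simp
    _ = ((PN F (2 * n + a)).filter (fun k => η ∣ k * R - e ^ 2 * η' ^ 2)).card *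
        (((PN F (2 * n + a)).filter (fun k' => η' ∣ k' * R - (-(e' ^ 2 * η ^ 2)))).card * Bd) := by
        rw [Finset.sum_const, Finset.sum_const, smul_eq_mul, smul_eq_mul]
    _ ≤ _ := by
        have h6 := card_mul_residue_le (c := e ^ 2 * η' ^ 2) dη hR (N := 2 * n + a)
          (by rw [nη]; omega)
        have h7 := card_mul_residue_le (c := -(e' ^ 2 * η ^ 2)) dη' hR (N := 2 * n + a)
          (by rw [nη']; omega)
        rw [nη] at h6
        rw [nη'] at h7
        exact Nat.mul_le_mul h6 (Nat.mul_le_mul_right _ h7)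

open Classical in
theorem count_Rne {n a D : ℕ} (ha : a ≤ 4 * n) (hD : D < a) :
    ∑ j ∈ Finset.range (D + 1), ∑ d ∈ MN F j, ∑ η ∈ MN F (D - j),
        ∑ η' ∈ (MN F (D - j)).filter (fun η' => IsCoprime η η'),
          ∑ e ∈ (PN F (a - 2 * n - 2)).erase 0, ∑ e' ∈ (PN F (a - 2 * n - 2)).erase 0,
            ∑ k ∈ PN F (2 * n + a), ∑ k' ∈ PN F (2 * n + a),
              ∑ R ∈ (PN F (2 * D + a - 2 * j - 6 * n - 3)).erase 0,
                ((cntR n a D d η η' k e k' e' R : ℕ) : ℝ) ≤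
      ((D : ℝ) + 1) * (dmax F (12 * n) : ℝ) ^ 4 * (Fintype.card F : ℝ) ^ (6 * a - 5) := by
  set q : ℝ := (Fintype.card F : ℝ) with hq
  have hq0 : 0 ≤ q := Nat.cast_nonneg _
  set T : ℝ := (dmax F (12 * n) : ℝ) with hT
  have hT0 : 0 ≤ T := Nat.cast_nonneg _
  have main : ∀ j ∈ Finset.range (D + 1), ∑ d ∈ MN F j, ∑ η ∈ MN F (D - j),
        ∑ η' ∈ (MN F (D - j)).filter (fun η' => IsCoprime η η'),
          ∑ e ∈ (PN F (a - 2 * n - 2)).erase 0, ∑ e' ∈ (PN F (a - 2 * n - 2)).erase 0,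
            ∑ k ∈ PN F (2 * n + a), ∑ k' ∈ PN F (2 * n + a),
              ∑ R ∈ (PN F (2 * D + a - 2 * j - 6 * n - 3)).erase 0,
                ((cntR n a D d η η' k e k' e' R : ℕ) : ℝ) ≤ T ^ 4 * q ^ (6 * a - 5) := by
    intro j hj
    rw [Finset.mem_range] at hj
    have hrhs : 0 ≤ T ^ 4 * q ^ (6 * a - 5) := by positivity
    by_cases hE : a ≤ 2 * n + 2
    · have h0 : a - 2 * n - 2 = 0 := by omega
      rw [h0, crn_PN_zero]
      simp only [Finset.sum_empty, Finset.sum_const_zero]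
      exact hrhs
    by_cases hr : 2 * D + a - 2 * j - 6 * n - 3 = 0
    · rw [hr, crn_PN_zero]
      simp only [Finset.sum_empty, Finset.sum_const_zero]
      exact hrhs
    set r := 2 * D + a - 2 * j - 6 * n - 3 with hrdef
    set E := a - 2 * n - 2 with hEdef
    set A : ℝ := q ^ (2 * (2 * n + a - (D - j)) + (6 * n + 2 + a - (2 * D - j))) with hA
    have hA0 : 0 ≤ A := by positivity
    have hinner : ∀ d ∈ MN F j, ∀ η ∈ MN F (D - j),
        ∀ η' ∈ (MN F (D - j)).filter (fun η' => IsCoprime η η'),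
        ∀ e ∈ (PN F E).erase 0, ∀ e' ∈ (PN F E).erase 0, ∀ R ∈ (PN F r).erase 0,
        ∑ k ∈ PN F (2 * n + a), ∑ k' ∈ PN F (2 * n + a),
          ((cntR n a D d η η' k e k' e' R : ℕ) : ℝ) ≤
        A * (q ^ gdeg R η * q ^ gdeg R η') * (q ^ gdeg e (d * η) * q ^ gdeg e' (d * η')) := by
      intro d hd η hη η' hη' e he e' he' R hR
      rw [Finset.mem_filter] at hη'
      have h1 := crn_inner ha hD (by omega : j ≤ D) hd hη hη'.1 hη'.2
        (Finset.ne_of_mem_erase he) (Finset.ne_of_mem_erase he') (Finset.ne_of_mem_erase hR)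
      have h2 : ((∑ k ∈ PN F (2 * n + a), ∑ k' ∈ PN F (2 * n + a),
          cntR n a D d η η' k e k' e' R : ℕ) : ℝ) ≤
          ((Fintype.card F ^ (gdeg R η + (2 * n + a) - (D - j)) *
        (Fintype.card F ^ (gdeg R η' + (2 * n + a) - (D - j)) *
        Fintype.card F ^ (gdeg e (d * η) + gdeg e' (d * η') + (6 * n + 2 + a) -
          (2 * D - j))) : ℕ) : ℝ) := by exact_mod_cast h1
      push_cast at h2
      refine le_trans h2 (le_of_eq ?_)
      rw [← hq, hA, ← pow_add, ← pow_add, ← pow_add, ← pow_add, ← pow_add, ← pow_add]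
      congr 1
      omega
    have hsumR : ∀ R ∈ (PN F r).erase 0, (∑ η ∈ MN F (D - j), q ^ gdeg R η) ≤
        T * q ^ (D - j) := by
      intro R hR
      have hR0 := Finset.ne_of_mem_erase hR
      have hR1 := Finset.mem_of_mem_erase hR
      rw [mem_PN, ← natDegree_lt_iff_degree_lt hR0] at hR1
      exact sum_gdeg_MN_le hR0 (by omega)
    calc ∑ d ∈ MN F j, ∑ η ∈ MN F (D - j),
        ∑ η' ∈ (MN F (D - j)).filter (fun η' => IsCoprime η η'),
          ∑ e ∈ (PN F E).erase 0, ∑ e' ∈ (PN F E).erase 0,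
            ∑ k ∈ PN F (2 * n + a), ∑ k' ∈ PN F (2 * n + a),
              ∑ R ∈ (PN F r).erase 0, ((cntR n a D d η η' k e k' e' R : ℕ) : ℝ)
        = ∑ d ∈ MN F j, ∑ η ∈ MN F (D - j),
        ∑ η' ∈ (MN F (D - j)).filter (fun η' => IsCoprime η η'),
          ∑ e ∈ (PN F E).erase 0, ∑ e' ∈ (PN F E).erase 0, ∑ R ∈ (PN F r).erase 0,
            ∑ k ∈ PN F (2 * n + a), ∑ k' ∈ PN F (2 * n + a),
              ((cntR n a D d η η' k e k' e' R : ℕ) : ℝ) := by
          apply Finset.sum_congr rfl; intro d _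
          apply Finset.sum_congr rfl; intro η _
          apply Finset.sum_congr rfl; intro η' _
          apply Finset.sum_congr rfl; intro e _
          apply Finset.sum_congr rfl; intro e' _
          have s1 : ∀ k ∈ PN F (2 * n + a), ∑ k' ∈ PN F (2 * n + a), ∑ R ∈ (PN F r).erase 0,
              ((cntR n a D d η η' k e k' e' R : ℕ) : ℝ) = ∑ R ∈ (PN F r).erase 0,
              ∑ k' ∈ PN F (2 * n + a), ((cntR n a D d η η' k e k' e' R : ℕ) : ℝ) :=
            fun k _ => Finset.sum_comm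
          rw [Finset.sum_congr rfl s1, Finset.sum_comm]
      _ ≤ ∑ d ∈ MN F j, ∑ η ∈ MN F (D - j),
        ∑ η' ∈ (MN F (D - j)).filter (fun η' => IsCoprime η η'),
          ∑ e ∈ (PN F E).erase 0, ∑ e' ∈ (PN F E).erase 0, ∑ R ∈ (PN F r).erase 0,
            A * (q ^ gdeg R η * q ^ gdeg R η') * (q ^ gdeg e (d * η) * q ^ gdeg e' (d * η')) := by
          refine Finset.sum_le_sum fun d hd => Finset.sum_le_sum fun η hη =>
            Finset.sum_le_sum fun η' hη' => Finset.sum_le_sum fun e he =>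
            Finset.sum_le_sum fun e' he' => Finset.sum_le_sum fun R hR => ?_
          exact hinner d hd η hη η' hη' e he e' he' R hR
      _ = ∑ d ∈ MN F j, ∑ η ∈ MN F (D - j),
        ∑ η' ∈ (MN F (D - j)).filter (fun η' => IsCoprime η η'),
          (A * ∑ R ∈ (PN F r).erase 0, q ^ gdeg R η * q ^ gdeg R η') *
            ((∑ e ∈ (PN F E).erase 0, q ^ gdeg e (d * η)) *
              (∑ e' ∈ (PN F E).erase 0, q ^ gdeg e' (d * η'))) := by
          apply Finset.sum_congr rfl; intro d _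
          apply Finset.sum_congr rfl; intro η _
          apply Finset.sum_congr rfl; intro η' _
          rw [Finset.sum_mul_sum, Finset.mul_sum]
          apply Finset.sum_congr rfl; intro e _
          rw [Finset.mul_sum]
          apply Finset.sum_congr rfl; intro e' _
          rw [Finset.mul_sum, Finset.sum_mul]
      _ ≤ ∑ d ∈ MN F j, ∑ η ∈ MN F (D - j),
        ∑ η' ∈ (MN F (D - j)).filter (fun η' => IsCoprime η η'),
          (A * ∑ R ∈ (PN F r).erase 0, q ^ gdeg R η * q ^ gdeg R η') *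
            ((T * q ^ E) * (T * q ^ E)) := by
          refine Finset.sum_le_sum fun d hd => Finset.sum_le_sum fun η hη =>
            Finset.sum_le_sum fun η' hη' => ?_
          rw [Finset.mem_filter] at hη'
          have m1 : (d * η).Monic := (monic_of_mem_MN hd).mul (monic_of_mem_MN hη)
          have m2 : (d * η').Monic := (monic_of_mem_MN hd).mul (monic_of_mem_MN hη'.1)
          have n1 : (d * η).natDegree ≤ 12 * n := by
            rw [(monic_of_mem_MN hd).natDegree_mul (monic_of_mem_MN hη),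
              natDegree_of_mem_MN hd, natDegree_of_mem_MN hη]
            omega
          have n2 : (d * η').natDegree ≤ 12 * n := by
            rw [(monic_of_mem_MN hd).natDegree_mul (monic_of_mem_MN hη'.1),
              natDegree_of_mem_MN hd, natDegree_of_mem_MN hη'.1]
            omega
          have b1 := sum_gdeg_le m1 (E := E) n1
          have b2 := sum_gdeg_le m2 (E := E) n2
          apply mul_le_mul_of_nonneg_left
          · exact mul_le_mul b1 b2 (Finset.sum_nonneg fun _ _ => by positivity) (by positivity)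
          · apply mul_nonneg hA0
            exact Finset.sum_nonneg fun _ _ => by positivity
      _ ≤ ∑ d ∈ MN F j, ∑ η ∈ MN F (D - j), ∑ η' ∈ MN F (D - j),
          (A * ∑ R ∈ (PN F r).erase 0, q ^ gdeg R η * q ^ gdeg R η') *
            ((T * q ^ E) * (T * q ^ E)) := by
          refine Finset.sum_le_sum fun d _ => Finset.sum_le_sum fun η _ => ?_
          apply Finset.sum_le_sum_of_subset_of_nonneg (Finset.filter_subset _ _)
          intro η' _ _
          have : 0 ≤ ∑ R ∈ (PN F r).erase 0, q ^ gdeg R η * q ^ gdeg R η' :=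
            Finset.sum_nonneg fun _ _ => by positivity
          positivity
      _ = ∑ d ∈ MN F j, (A * ((T * q ^ E) * (T * q ^ E))) *
          ∑ R ∈ (PN F r).erase 0, (∑ η ∈ MN F (D - j), q ^ gdeg R η) *
            (∑ η' ∈ MN F (D - j), q ^ gdeg R η') := by
          apply Finset.sum_congr rfl; intro d _
          have s2 : ∑ R ∈ (PN F r).erase 0, (∑ η ∈ MN F (D - j), q ^ gdeg R η) *
            (∑ η' ∈ MN F (D - j), q ^ gdeg R η') = ∑ η ∈ MN F (D - j), ∑ η' ∈ MN F (D - j),
              ∑ R ∈ (PN F r).erase 0, q ^ gdeg R η * q ^ gdeg R η' := by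
            simp_rw [Finset.sum_mul_sum]
            rw [Finset.sum_comm]
            apply Finset.sum_congr rfl; intro η _
            rw [Finset.sum_comm]
          rw [s2, Finset.mul_sum]
          apply Finset.sum_congr rfl; intro η _
          rw [Finset.mul_sum]
          apply Finset.sum_congr rfl; intro η' _
          ring
      _ ≤ ∑ d ∈ MN F j, (A * ((T * q ^ E) * (T * q ^ E))) *
          ∑ R ∈ (PN F r).erase 0, (T * q ^ (D - j)) * (T * q ^ (D - j)) := by
          refine Finset.sum_le_sum fun d _ => ?_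
          apply mul_le_mul_of_nonneg_left
          · refine Finset.sum_le_sum fun R hR => ?_
            exact mul_le_mul (hsumR R hR) (hsumR R hR)
              (Finset.sum_nonneg fun _ _ => by positivity) (by positivity)
          · positivity
      _ = q ^ j * ((A * ((T * q ^ E) * (T * q ^ E))) *
          ((((PN F r).erase 0).card : ℝ) * ((T * q ^ (D - j)) * (T * q ^ (D - j))))) := by
          rw [Finset.sum_const, Finset.sum_const, card_MN, nsmul_eq_mul, nsmul_eq_mul]
          push_cast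
          rfl
      _ ≤ q ^ j * ((A * ((T * q ^ E) * (T * q ^ E))) *
          (q ^ r * ((T * q ^ (D - j)) * (T * q ^ (D - j))))) := by
          have hc : (((PN F r).erase 0).card : ℝ) ≤ q ^ r := by
            have h8 : ((PN F r).erase 0).card ≤ Fintype.card F ^ r := by
              rw [← card_PN]
              exact Finset.card_le_card (Finset.erase_subset _ _)
            rw [hq]
            exact_mod_cast h8
          apply mul_le_mul_of_nonneg_left _ (by positivity)
          apply mul_le_mul_of_nonneg_left _ (by positivity)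
          exact mul_le_mul_of_nonneg_right hc (by positivity)
      _ = T ^ 4 * q ^ (6 * a - 5) := by
          have hex : q ^ (6 * a - 5) = q ^ j * A * (q ^ E * q ^ E) * q ^ r *
              (q ^ (D - j) * q ^ (D - j)) := by
            rw [hA, ← pow_add, ← pow_add, ← pow_add, ← pow_add, ← pow_add, ← pow_add]
            congr 1
            omega
          rw [hex]
          ring
  calc _ ≤ ∑ j ∈ Finset.range (D + 1), T ^ 4 * q ^ (6 * a - 5) := Finset.sum_le_sum main
    _ = ((D : ℝ) + 1) * T ^ 4 * q ^ (6 * a - 5) := by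
        rw [Finset.sum_const, Finset.card_range, nsmul_eq_mul]
        push_cast
        ring

end Pool.Agent.Helper84.AS
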