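import Pool.Agent.Helper84.AS.Defs
import Pool.Agent.Helper31.AR.D1Defs
import Pool.Agent.Helper31.AR.RhoSum
import Pool.Agent.Helper31.AR.Recip
import Pool.Agent.Helper31.AR.JBasic

/-!
Port of `Pool.Agent.Helper31.AR.Shift` (project AR, helper31 and others) to the box `deg A ≤ 4 n + 1`,
`deg B ≤ 6 n + 1`. The comment below is that of the original, where `6 n + 1`, `4 n + 1`, `10 n + 2` and
`4 n + a` stand for `6 n + 2`, `4 n + 2`, `10 n + 4` and `4 n + 1 + a` here.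
-/

/-!
# AR-38: the shift `v ↦ v + d η η' y`

Notation: `m = 6 n + 1 + a`, `h = d η`, `h' = d η'`, `N = d η η' = h η' = h' η` (monic of degree `2 D - j`),
`Y = 6 n + 3 + j - a` (positive, as `a ≤ 4 n`), `f v = J h v * Phi ψ v h k * conj (J h' v * Phi ψ v h' k')`, `V = vset n a D h k e h' k' e'`.

(1) `V` is stable under `v ↦ v + N y`, `y ∈ PN F Y`: `deg (N y) ≤ 2 D - j + Y - 1 = 2 D + 6 n + 2 - a < m` (as `D < a`), so
`v + N y ∈ MN F m`; it is congruent to `v` modulo `h` and `h'`, so coprimality is preserved; `h ∣ k ^ 2 - (v + N y) e`;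
`deg (N y e) ≤ (2 D + 6 n + 2 - a) + (a - 2 n - 3) = 2 D + 4 n - 1 < 4 n + a + D` if `e ≠ 0` (then `a ≥ 2 n + 3`; if `e = 0`
nothing to show). So `k ∈ kset n a D (v + N y) h e` (`k ^ 2 - (v + N y) e = (k ^ 2 - v e) - N y e`).

(2) `J h (v + N y) = J h v` (`J_congr`). Let `w` be an inverse of `v` modulo `N ^ 2` (`v` is coprime to `h` and `h'`, so to `N`);
it is an inverse modulo `h ^ 2`. Modulo `h ^ 2` an inverse of `v + N y` is `w - N y w ^ 2` (`(v + N y)(w - N y w ^ 2) - 1 ≡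
- N ^ 2 y ^ 2 w ^ 2 ≡ 0`, `h ^ 2 ∣ N ^ 2`). So (`minv_congr`, `rho_congr`)
`rho (h ^ 2) (k ^ 3 minv (h ^ 2) (v + N y)) = rho (h ^ 2) (k ^ 3 w) - rho (h ^ 2) (k ^ 3 N y w ^ 2)` and, by `rho_mul_mul`,
`rho (h ^ 2) (k ^ 3 h η' y w ^ 2) = rho h (k ^ 3 η' y w ^ 2) = rho (h η') (k ^ 3 η' ^ 2 y w ^ 2) = rho N (k ^ 3 η' ^ 2 w ^ 2 y)`.
And `rho (h ^ 2 (v + N y)) (k ^ 3) = rho (h ^ 2 v) (k ^ 3)`: the difference is
`- rho (h ^ 2 v (v + N y)) (k ^ 3 N y)` (`rho_mul_mul` twice), and `deg (k ^ 3 N y) ≤ 3 (2 n + a - 1) + (2 D + 6 n + 2 - a) =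
12 n + 2 a + 2 D - 1 < 2 D + 2 m - 1`, so it vanishes (`rho_eq_zero`). Hence
`Phi ψ (v + N y) h k = Phi ψ v h k * ψ (rho N (k ^ 3 η' ^ 2 w ^ 2 y))`, the same for `h'`, and
`f (v + N y) = f v * ψ (rho N (g w ^ 2 y))`, `g = k ^ 3 η' ^ 2 - k' ^ 3 η ^ 2` (`conj (ψ x) = ψ (-x)`).

(3) So `q ^ Y ∑_{v ∈ V} f v = ∑_{y ∈ PN F Y} ∑_{v ∈ V} f (v + N y) = ∑_{v ∈ V} f v ∑_y ψ (rho N ((g w_v ^ 2) y))`, and by
`sum_psi_rho` the inner sum is `q ^ Y` if `R := (g w_v ^ 2) %ₘ N ∈ PN F (2 D - j - Y) = PN F (2 D + a - 2 j - 6 n - 3)` (natural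
subtraction) and `0` otherwise. In the first case `N ∣ v ^ 2 R - g`. As `‖f v‖ ≤ 1` (`norm_J_le`, `ψ` has absolute value
`1`: `AddChar.norm_apply`) we get the bound.
-/

set_option autoImplicit false

open Polynomial

namespace Pool.Agent.Helper84.AS

open Pool.Agent.Helper31.AR

variable {F : Type} [Field F] [Fintype F]

/-- the shifted modulus term -/
private lemma shift_deg {n a D j : ℕ} (ha : a ≤ 4 * n) (hD : D < a) (hj : j ≤ D) {N y : F[X]}
    (hN : N ∈ MN F (2 * D - j)) (hy : y ∈ PN F (6 * n + 3 + j - a)) :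
    N * y ∈ PN F (2 * D + 6 * n + 3 - a) := by
  have h1 : N ∈ PN F (2 * D - j + 1) := by
    rw [mem_PN, degree_of_mem_MN hN]
    exact_mod_cast Nat.lt_succ_self _
  have h2 := mul_mem_PN h1 hy
  refine PN_mono ?_ h2
  omega

private lemma mem_kset_iff (n a D : ℕ) (v h e k : F[X]) :
    k ∈ kset n a D v h e ↔ k ∈ PN F (2 * n + a) ∧ h ∣ k ^ 2 - v * e ∧
      k ^ 2 - v * e ∈ PN F (4 * n + 1 + a + D) := by
  classical
  unfold kset
  rw [Finset.mem_filter, mem_PN (4 * n + 1 + a + D)]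

private lemma kset_shift {n a D j : ℕ} (ha : a ≤ 4 * n) (hD : D < a) (hj : j ≤ D) {N y : F[X]}
    (hN : N ∈ MN F (2 * D - j)) (hy : y ∈ PN F (6 * n + 3 + j - a)) {v h e k : F[X]} (hh : h ∣ N)
    (he : e ∈ PN F (a - 2 * n - 2)) (hk : k ∈ kset n a D v h e) :
    k ∈ kset n a D (v + N * y) h e := by
  rw [mem_kset_iff] at *
  obtain ⟨h1, h2, h3⟩ := hk
  have h4 : k ^ 2 - (v + N * y) * e = (k ^ 2 - v * e) - N * y * e := by ring
  rw [h4]
  refine ⟨h1, dvd_sub h2 ?_, sub_mem_PN h3 ?_⟩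
  · exact Dvd.dvd.mul_right (Dvd.dvd.mul_right hh _) _
  · by_cases hz : a - 2 * n - 2 = 0
    · rw [hz, mem_PN] at he
      have h5 : e = 0 := by
        rw [← degree_eq_bot]
        by_contra h6
        rw [degree_eq_bot] at h6
        have h7 := degree_eq_natDegree h6
        rw [h7] at he
        exact absurd (by exact_mod_cast he : e.natDegree < 0) (Nat.not_lt_zero _)
      rw [h5, mul_zero]
      exact zero_mem_PN _
    · have h5 := mul_mem_PN (shift_deg ha hD hj hN hy) he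
      refine PN_mono ?_ h5
      omega

private lemma mem_vset_iff (n a D : ℕ) (h k e h' k' e' v : F[X]) :
    v ∈ vset n a D h k e h' k' e' ↔ v ∈ MN F (6 * n + 2 + a) ∧ IsCoprime v h ∧ IsCoprime v h' ∧
      k ∈ kset n a D v h e ∧ k' ∈ kset n a D v h' e' := by
  classical
  unfold vset
  rw [Finset.mem_filter]

omit [Fintype F] in
private lemma coprime_shift {v h N y : F[X]} (hh : h ∣ N) (hc : IsCoprime v h) :
    IsCoprime (v + N * y) h := by
  obtain ⟨c, rfl⟩ := hh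
  have : v + h * c * y = v + h * (c * y) := by ring
  rw [this]
  exact IsCoprime.add_mul_left_left hc (c * y)

private lemma vset_shift {n a D j : ℕ} (ha : a ≤ 4 * n) (hD : D < a) (hj : j ≤ D) {N y : F[X]}
    (hN : N ∈ MN F (2 * D - j)) (hy : y ∈ PN F (6 * n + 3 + j - a)) {v h e k h' e' k' : F[X]}
    (hh : h ∣ N) (hh' : h' ∣ N) (he : e ∈ PN F (a - 2 * n - 2)) (he' : e' ∈ PN F (a - 2 * n - 2))
    (hv : v ∈ vset n a D h k e h' k' e') : v + N * y ∈ vset n a D h k e h' k' e' := by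
  rw [mem_vset_iff] at *
  obtain ⟨h1, h2, h3, h4, h5⟩ := hv
  refine ⟨MN_add h1 (PN_mono ?_ (shift_deg ha hD hj hN hy)), coprime_shift hh h2,
    coprime_shift hh' h3, kset_shift ha hD hj hN hy hh he h4, kset_shift ha hD hj hN hy hh' he' h5⟩
  omega

/-- the shift of the phase -/
private lemma Phi_shift (ψ : AddChar F ℂ) {n a D j : ℕ} (ha : a ≤ 4 * n) (hD : D < a) (hj : j ≤ D)
    {h η : F[X]} (hh : h ∈ MN F D) (hη : η ∈ MN F (D - j)) {v y k w : F[X]}
    (hv : v ∈ MN F (6 * n + 2 + a)) (hc : IsCoprime v h)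
    (hw : (h * η) ^ 2 ∣ w * v - 1) (hy : y ∈ PN F (6 * n + 3 + j - a))
    (hk : k ∈ PN F (2 * n + a)) :
    Phi ψ (v + h * η * y) h k =
      Phi ψ v h k * ψ (rho (h * η) (k ^ 3 * η ^ 2 * w ^ 2 * y)) := by
  have hN : h * η ∈ MN F (2 * D - j) := by
    have := MN_mul hh hη
    have h1 : D + (D - j) = 2 * D - j := by omega
    rwa [h1] at this
  have hsh := shift_deg ha hD hj hN hy
  have hv' : v + h * η * y ∈ MN F (6 * n + 2 + a) := by
    refine MN_add hv (PN_mono ?_ hsh)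
    omega
  have hhm := monic_of_mem_MN hh
  have hηm := monic_of_mem_MN hη
  have hvm := monic_of_mem_MN hv
  have hvm' := monic_of_mem_MN hv'
  have hh2 : (h ^ 2).Monic := hhm.pow 2
  -- first part
  have e1 : rho (h ^ 2 * (v + h * η * y)) (k ^ 3) = rho (h ^ 2 * v) (k ^ 3) := by
    have a1 : rho (h ^ 2 * (v + h * η * y) * v) (k ^ 3 * v) =
        rho (h ^ 2 * (v + h * η * y)) (k ^ 3) := rho_mul_mul (hh2.mul hvm') hvm _
    have a2 : rho (h ^ 2 * v * (v + h * η * y)) (k ^ 3 * (v + h * η * y)) =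
        rho (h ^ 2 * v) (k ^ 3) := rho_mul_mul (hh2.mul hvm) hvm' _
    have a3 : h ^ 2 * (v + h * η * y) * v = h ^ 2 * v * (v + h * η * y) := by ring
    rw [a3] at a1
    rw [← a1, ← a2, ← sub_eq_zero, ← rho_sub]
    have a4 : k ^ 3 * v - k ^ 3 * (v + h * η * y) = -(k ^ 3 * (h * η * y)) := by ring
    rw [a4, rho_neg, neg_eq_zero]
    apply rho_eq_zero ((hh2.mul hvm).mul hvm')
    have a5 : (h ^ 2 * v * (v + h * η * y)).natDegree = 2 * D + (6 * n + 2 + a) + (6 * n + 2 + a) := by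
      rw [(hh2.mul hvm).natDegree_mul hvm', hh2.natDegree_mul hvm, hhm.natDegree_pow,
        natDegree_of_mem_MN hh, natDegree_of_mem_MN hv, natDegree_of_mem_MN hv']
    rw [a5, ← mem_PN]
    have a6 : k ^ 3 = k * k * k := by ring
    rw [a6]
    have a7 := mul_mem_PN (mul_mem_PN (mul_mem_PN hk hk) hk) hsh
    refine PN_mono ?_ a7
    omega
  -- second part
  have hc2 : IsCoprime v (h ^ 2) := hc.pow_right
  have hdvd : h ^ 2 ∣ (h * η) ^ 2 := pow_dvd_pow_of_dvd (Dvd.intro _ rfl) 2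
  have e2 : h ^ 2 ∣ w - minv (h ^ 2) v := minv_congr hc2 (dvd_trans hdvd hw)
  have hc3 : IsCoprime (v + h * η * y) (h ^ 2) :=
    (coprime_shift (Dvd.intro _ rfl) hc).pow_right
  have e3 : h ^ 2 ∣ (w - h * η * y * w ^ 2) - minv (h ^ 2) (v + h * η * y) := by
    apply minv_congr hc3
    have b1 : (w - h * η * y * w ^ 2) * (v + h * η * y) - 1 =
        (w * v - 1) * (1 - w * (h * η) * y) - (h * η) ^ 2 * (y ^ 2 * w ^ 2) := by ring
    rw [b1]
    exact dvd_sub (Dvd.dvd.mul_right (dvd_trans hdvd hw) _) (Dvd.dvd.mul_right hdvd _)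
  have e4 : rho (h ^ 2) (k ^ 3 * minv (h ^ 2) v) = rho (h ^ 2) (k ^ 3 * w) := by
    apply rho_congr hh2
    have : k ^ 3 * minv (h ^ 2) v - k ^ 3 * w = -(k ^ 3) * (w - minv (h ^ 2) v) := by ring
    rw [this]
    exact Dvd.dvd.mul_left e2 _
  have e5 : rho (h ^ 2) (k ^ 3 * minv (h ^ 2) (v + h * η * y)) =
      rho (h ^ 2) (k ^ 3 * w) - rho (h * η) (k ^ 3 * η ^ 2 * w ^ 2 * y) := by
    have b1 : rho (h ^ 2) (k ^ 3 * minv (h ^ 2) (v + h * η * y)) =
        rho (h ^ 2) (k ^ 3 * w - (k ^ 3 * η * w ^ 2 * y) * h) := by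
      apply rho_congr hh2
      have : k ^ 3 * minv (h ^ 2) (v + h * η * y) - (k ^ 3 * w - k ^ 3 * η * w ^ 2 * y * h) =
        -(k ^ 3) * ((w - h * η * y * w ^ 2) - minv (h ^ 2) (v + h * η * y)) := by ring
      rw [this]
      exact Dvd.dvd.mul_left e3 _
    rw [b1, rho_sub]
    congr 1
    have b2 : h ^ 2 = h * h := by ring
    rw [b2, rho_mul_mul hhm hhm, ← rho_mul_mul hhm hηm]
    congr 1
    ring
  unfold Phi
  rw [e1, e4, e5, ← AddChar.map_add_eq_mul]
  congr 1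
  ring

theorem vsum_bound (ψ : AddChar F ℂ) (hψ : ψ ≠ 1) {n a D j : ℕ} (ha : a ≤ 4 * n) (hD : D < a)
    (hj : j ≤ D) {d η η' : F[X]} (hd : d ∈ MN F j) (hη : η ∈ MN F (D - j)) (hη' : η' ∈ MN F (D - j))
    {k k' e e' : F[X]} (hk : k ∈ PN F (2 * n + a)) (hk' : k' ∈ PN F (2 * n + a))
    (he : e ∈ PN F (a - 2 * n - 2)) (he' : e' ∈ PN F (a - 2 * n - 2)) :
    ‖∑ v ∈ vset n a D (d * η) k e (d * η') k' e',
      ((J (d * η) v : ℂ) * Phi ψ v (d * η) k) *
        (starRingEnd ℂ) ((J (d * η') v : ℂ) * Phi ψ v (d * η') k')‖ ≤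
      ((cnt n a D j d η η' k e k' e' : ℕ) : ℝ) := by
  classical
  set N : F[X] := d * η * η' with hNdef
  set V := vset n a D (d * η) k e (d * η') k' e' with hVdef
  set f : F[X] → ℂ := fun v => ((J (d * η) v : ℂ) * Phi ψ v (d * η) k) *
        (starRingEnd ℂ) ((J (d * η') v : ℂ) * Phi ψ v (d * η') k') with hf
  set Y : ℕ := 6 * n + 3 + j - a with hY
  set g : F[X] := k ^ 3 * η' ^ 2 - k' ^ 3 * η ^ 2 with hg
  have hh : d * η ∈ MN F D := by
    have := MN_mul hd hη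
    have h1 : j + (D - j) = D := by omega
    rwa [h1] at this
  have hh' : d * η' ∈ MN F D := by
    have := MN_mul hd hη'
    have h1 : j + (D - j) = D := by omega
    rwa [h1] at this
  have hN : N ∈ MN F (2 * D - j) := by
    have := MN_mul hh hη'
    have h1 : D + (D - j) = 2 * D - j := by omega
    rwa [h1] at this
  have hNm := monic_of_mem_MN hN
  have hN2 : N = d * η' * η := by rw [hNdef]; ring
  have hdv : d * η ∣ N := Dvd.intro _ rfl
  have hdv' : d * η' ∣ N := by rw [hN2]; exact Dvd.intro _ rfl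
  -- coprimality
  have hcop : ∀ v ∈ V, IsCoprime v N := by
    intro v hv
    rw [hVdef, mem_vset_iff] at hv
    obtain ⟨-, h2, h3, -, -⟩ := hv
    exact h2.mul_right (IsCoprime.of_mul_right_right h3)
  -- the shift of f
  have hshift : ∀ v ∈ V, ∀ y ∈ PN F Y,
      f (v + N * y) = f v * ψ (rho N (g * minv (N ^ 2) v ^ 2 * y)) := by
    intro v hv y hy
    have hc := hcop v hv
    have hv1 := hv
    rw [hVdef, mem_vset_iff] at hv1
    obtain ⟨h1, h2, h3, -, -⟩ := hv1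
    have hw : N ^ 2 ∣ minv (N ^ 2) v * v - 1 := minv_spec hc.pow_right
    have s1 := Phi_shift ψ ha hD hj hh hη' h1 h2 hw hy hk
    have hw' : (d * η' * η) ^ 2 ∣ minv (N ^ 2) v * v - 1 := by rw [← hN2]; exact hw
    have s2 := Phi_shift ψ ha hD hj hh' hη h1 h3 hw' hy hk'
    rw [← hN2] at s2
    have j1 : J (d * η) (v + N * y) = J (d * η) v := by
      apply J_congr (monic_of_mem_MN hh)
      have : v + N * y - v = N * y := by ring
      rw [this]
      exact Dvd.dvd.mul_right hdv _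
    have j2 : J (d * η') (v + N * y) = J (d * η') v := by
      apply J_congr (monic_of_mem_MN hh')
      have : v + N * y - v = N * y := by ring
      rw [this]
      exact Dvd.dvd.mul_right hdv' _
    have s3 : ψ (rho N (g * minv (N ^ 2) v ^ 2 * y)) =
        ψ (rho N (k ^ 3 * η' ^ 2 * minv (N ^ 2) v ^ 2 * y)) *
          (starRingEnd ℂ) (ψ (rho N (k' ^ 3 * η ^ 2 * minv (N ^ 2) v ^ 2 * y))) := by
      rw [← AddChar.map_neg_eq_conj, ← AddChar.map_add_eq_mul, ← rho_neg, ← rho_add]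
      congr 2
      rw [hg]
      ring
    simp only [hf]
    rw [j1, j2, s1, s2, s3]
    simp only [map_mul]
    ring
  -- the bijection
  have hbij : ∀ y ∈ PN F Y, ∑ v ∈ V, f (v + N * y) = ∑ v ∈ V, f v := by
    intro y hy
    refine Finset.sum_bij' (fun v _ => v + N * y) (fun v _ => v + N * (-y)) ?_ ?_ ?_ ?_ ?_
    · intro v hv; exact vset_shift ha hD hj hN hy hdv hdv' he he' hv
    · intro v hv; exact vset_shift ha hD hj hN (neg_mem_PN hy) hdv hdv' he he' hv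
    · intro v _; ring
    · intro v _; ring
    · intro v _; rfl
  have hq : (0 : ℝ) < (Fintype.card F : ℝ) ^ Y := by
    have : 0 < Fintype.card F := Fintype.card_pos
    positivity
  have hNd : N.natDegree - Y = 2 * D + a - 2 * j - 6 * n - 3 := by
    rw [natDegree_of_mem_MN hN]
    omega
  -- main identity
  have hmain : ((Fintype.card F : ℂ)) ^ Y * ∑ v ∈ V, f v =
      ∑ v ∈ V, f v * (if (g * minv (N ^ 2) v ^ 2) %ₘ N ∈ PN F (2 * D + a - 2 * j - 6 * n - 3)
        then ((Fintype.card F : ℂ)) ^ Y else 0) := by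
    have a1 : ∑ y ∈ PN F Y, ∑ v ∈ V, f (v + N * y) = ((Fintype.card F : ℂ)) ^ Y * ∑ v ∈ V, f v := by
      rw [Finset.sum_congr rfl hbij, Finset.sum_const, card_PN, nsmul_eq_mul]
      push_cast
      ring
    rw [← a1, Finset.sum_comm]
    refine Finset.sum_congr rfl (fun v hv => ?_)
    rw [Finset.sum_congr rfl (fun y hy => hshift v hv y hy), ← Finset.mul_sum,
      sum_psi_rho ψ hψ hNm, hNd]
  have hfle : ∀ v, ‖f v‖ ≤ 1 := by
    intro v
    simp only [hf]
    rw [norm_mul, RCLike.norm_conj, norm_mul, norm_mul]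
    have b1 := norm_J_le (d * η) v
    have b2 := norm_J_le (d * η') v
    have b3 : ‖Phi ψ v (d * η) k‖ = 1 := by unfold Phi; exact AddChar.norm_apply _ _
    have b4 : ‖Phi ψ v (d * η') k'‖ = 1 := by unfold Phi; exact AddChar.norm_apply _ _
    rw [b3, b4, mul_one, mul_one]
    exact mul_le_one₀ b1 (norm_nonneg _) b2
  have hfin : ((Fintype.card F : ℝ)) ^ Y * ‖∑ v ∈ V, f v‖ ≤
      ((Fintype.card F : ℝ)) ^ Y * ((cnt n a D j d η η' k e k' e' : ℕ) : ℝ) := by
    have c1 : ((Fintype.card F : ℝ)) ^ Y * ‖∑ v ∈ V, f v‖ =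
        ‖((Fintype.card F : ℂ)) ^ Y * ∑ v ∈ V, f v‖ := by
      rw [norm_mul, norm_pow, Complex.norm_natCast]
    rw [c1, hmain]
    refine le_trans (norm_sum_le _ _) ?_
    have c2 : ∀ v ∈ V, ‖f v * (if (g * minv (N ^ 2) v ^ 2) %ₘ N ∈
        PN F (2 * D + a - 2 * j - 6 * n - 3) then ((Fintype.card F : ℂ)) ^ Y else 0)‖ ≤
        (if (∃ R ∈ PN F (2 * D + a - 2 * j - 6 * n - 3), N ∣ v ^ 2 * R - g) then
          ((Fintype.card F : ℝ)) ^ Y else 0) := by
      intro v hv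
      by_cases hR : (g * minv (N ^ 2) v ^ 2) %ₘ N ∈ PN F (2 * D + a - 2 * j - 6 * n - 3)
      · have hex : ∃ R ∈ PN F (2 * D + a - 2 * j - 6 * n - 3), N ∣ v ^ 2 * R - g := by
          refine ⟨_, hR, ?_⟩
          set w := minv (N ^ 2) v with hwdef
          have hw : N ^ 2 ∣ w * v - 1 := minv_spec (hcop v hv).pow_right
          have hw1 : N ∣ w * v - 1 := dvd_trans (Dvd.intro_left N (by ring)) hw
          have hm := modByMonic_add_div (g * w ^ 2) N
          have e5 : v ^ 2 * ((g * w ^ 2) %ₘ N) - g =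
              g * (w * v + 1) * (w * v - 1) - N * (v ^ 2 * ((g * w ^ 2) /ₘ N)) := by
            have e6 : (g * w ^ 2) %ₘ N = g * w ^ 2 - N * ((g * w ^ 2) /ₘ N) := by
              rw [eq_sub_iff_add_eq]
              exact hm
            rw [e6]
            ring
          rw [e5]
          exact dvd_sub (Dvd.dvd.mul_left hw1 _) (Dvd.intro _ rfl)
        rw [if_pos hR, if_pos hex, norm_mul, norm_pow, Complex.norm_natCast]
        have := hfle v
        nlinarith [hq]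
      · rw [if_neg hR, mul_zero, norm_zero]
        split_ifs
        · exact hq.le
        · exact le_rfl
    refine le_trans (Finset.sum_le_sum c2) ?_
    rw [← Finset.sum_filter, Finset.sum_const, nsmul_eq_mul, mul_comm]
    apply le_of_eq
    unfold cnt
    rfl
  exact le_of_mul_le_mul_left hfin hq

end Pool.Agent.Helper84.AS
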