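import Pool.Agent.Helper84.AS.Defs
import Pool.Agent.Helper84.AS.Shift

/-!
Port of `Pool.Agent.Helper31.AR.Expand` (project AR, helper31 and others) to the box `deg A ≤ 4 n + 1`,
`deg B ≤ 6 n + 1`. The comment below is that of the original, where `6 n + 1`, `4 n + 1`, `10 n + 2` and
`4 n + a` stand for `6 n + 2`, `4 n + 2`, `10 n + 4` and `4 n + 1 + a` here.
-/

/-!
# AR-39: expansion of the second moment of `X1`

Let `m = 6 n + 1 + a`, `E = a - 2 n - 2`, `K = 2 n + a`. `X1 ψ n a D v = ∑_{h ∈ MN F D} ∑_{e ∈ (PN F E).erase 0} ∑_{k ∈ PN F K}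
1[k ∈ kset n a D v h e] J h v Phi ψ v h k`, and the terms with `v` not coprime to `h` vanish (`J_eq_zero_iff`). So
`∑_v ‖X1 v‖ ^ 2 = ∑_{h, h'} ∑_{e, e'} ∑_{k, k'} ∑_{v ∈ vset n a D h k e h' k' e'} (J h v Phi ψ v h k) conj (J h' v Phi ψ v h' k')`
(`RCLike.mul_conj`, exchange of sums). Every pair `(h, h')` of monic polynomials of degree `D` is `(d η, d η')` for a unique
triple: `j ≤ D`, `d ∈ MN F j` (the monic gcd), `η`, `η' ∈ MN F (D - j)` coprime. Apply `vsum_bound` to each term and the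
triangle inequality. (Only `≤` is needed: it is enough that every pair `(h, h')` occurs, the bounds being `≥ 0`.)
-/

set_option autoImplicit false

open Polynomial

namespace Pool.Agent.Helper84.AS

open Pool.Agent.Helper31.AR

variable {F : Type} [Field F] [Fintype F]

/-- every pair of monic polynomials of degree `D` is `(d η, d η')` -/
private lemma exists_gcd_decomp {D : ℕ} {h h' : F[X]} (hh : h ∈ MN F D) (hh' : h' ∈ MN F D) :
    ∃ j ∈ Finset.range (D + 1), ∃ d ∈ MN F j, ∃ η ∈ MN F (D - j), ∃ η' ∈ MN F (D - j),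
      IsCoprime η η' ∧ d * η = h ∧ d * η' = h' := by
  classical
  have hm := monic_of_mem_MN hh
  have hm' := monic_of_mem_MN hh'
  have hg0 : EuclideanDomain.gcd h h' ≠ 0 := by
    intro h0
    rw [EuclideanDomain.gcd_eq_zero_iff] at h0
    exact hm.ne_zero h0.1
  obtain ⟨g, hg⟩ : ∃ g, g = EuclideanDomain.gcd h h' := ⟨_, rfl⟩
  rw [← hg] at hg0
  have hlc : g.leadingCoeff ≠ 0 := leadingCoeff_ne_zero.2 hg0
  obtain ⟨d, hd⟩ : ∃ d : F[X], d = C (g.leadingCoeff)⁻¹ * g := ⟨_, rfl⟩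
  have hdm : d.Monic := by
    unfold Monic
    rw [hd, leadingCoeff_mul, leadingCoeff_C, inv_mul_cancel₀ hlc]
  have hgd : g = C g.leadingCoeff * d := by
    rw [hd, ← mul_assoc, ← C_mul, mul_inv_cancel₀ hlc, C_1, one_mul]
  have hdh : d ∣ h := by
    refine dvd_trans (Dvd.intro_left (C g.leadingCoeff) hgd.symm) ?_
    rw [hg]; exact EuclideanDomain.gcd_dvd_left h h'
  have hdh' : d ∣ h' := by
    refine dvd_trans (Dvd.intro_left (C g.leadingCoeff) hgd.symm) ?_
    rw [hg]; exact EuclideanDomain.gcd_dvd_right h h'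
  obtain ⟨η, rfl⟩ := hdh
  obtain ⟨η', rfl⟩ := hdh'
  have hηm : η.Monic := hdm.of_mul_monic_left hm
  have hηm' : η'.Monic := hdm.of_mul_monic_left hm'
  have hdeg := natDegree_of_mem_MN hh
  have hdeg' := natDegree_of_mem_MN hh'
  rw [hdm.natDegree_mul hηm] at hdeg
  rw [hdm.natDegree_mul hηm'] at hdeg'
  refine ⟨d.natDegree, ?_, d, ?_, η, ?_, η', ?_, ?_, rfl, rfl⟩
  · rw [Finset.mem_range]; omega
  · rw [mem_MN]; exact ⟨hdm, rfl⟩
  · rw [mem_MN]; exact ⟨hηm, by omega⟩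
  · rw [mem_MN]; exact ⟨hηm', by omega⟩
  · have hab := EuclideanDomain.gcd_eq_gcd_ab (d * η) (d * η')
    rw [← hg] at hab
    refine ⟨C (g.leadingCoeff)⁻¹ * EuclideanDomain.gcdA (d * η) (d * η'),
      C (g.leadingCoeff)⁻¹ * EuclideanDomain.gcdB (d * η) (d * η'), ?_⟩
    apply mul_left_cancel₀ hdm.ne_zero
    have h1 : d * 1 = C (g.leadingCoeff)⁻¹ * g := by rw [mul_one, hd]
    rw [h1, hab]
    ring

open Classical in
private lemma sum_pairs_le {D : ℕ} (B : F[X] → F[X] → ℝ) (hB : ∀ x y, 0 ≤ B x y) :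
    ∑ h ∈ MN F D, ∑ h' ∈ MN F D, B h h' ≤
      ∑ j ∈ Finset.range (D + 1), ∑ d ∈ MN F j, ∑ η ∈ MN F (D - j),
        ∑ η' ∈ (MN F (D - j)).filter (fun η' => IsCoprime η η'), B (d * η) (d * η') := by
  classical
  rw [← Finset.sum_product', Finset.sum_sigma', Finset.sum_sigma', Finset.sum_sigma']
  have hex : ∀ p : F[X] × F[X], p ∈ MN F D ×ˢ MN F D →
      ∃ z ∈ (((Finset.range (D + 1)).sigma fun j => MN F j).sigma
        fun x => MN F (D - x.1)).sigma
          fun y => (MN F (D - y.1.1)).filter (fun η' => IsCoprime y.2 η'),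
        (z.1.1.2 * z.1.2, z.1.1.2 * z.2) = p := by
    rintro ⟨h, h'⟩ hp
    rw [Finset.mem_product] at hp
    obtain ⟨j, hj, d, hd, η, hη, η', hη', hc, rfl, rfl⟩ := exists_gcd_decomp hp.1 hp.2
    refine ⟨⟨⟨⟨j, d⟩, η⟩, η'⟩, ?_, rfl⟩
    rw [Finset.mem_sigma, Finset.mem_sigma, Finset.mem_sigma, Finset.mem_filter]
    exact ⟨⟨⟨hj, hd⟩, hη⟩, hη', hc⟩
  choose! z hz hz2 using hex
  have hinj : Set.InjOn z (↑(MN F D ×ˢ MN F D) : Set (F[X] × F[X])) := by
    intro p hp p' hp' he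
    rw [← hz2 p hp, ← hz2 p' hp', he]
  calc ∑ p ∈ MN F D ×ˢ MN F D, B p.1 p.2
      = ∑ p ∈ MN F D ×ˢ MN F D, B ((z p).1.1.2 * (z p).1.2) ((z p).1.1.2 * (z p).2) := by
        refine Finset.sum_congr rfl (fun p hp => ?_)
        have := hz2 p hp
        have h1 := congrArg Prod.fst this
        have h2 := congrArg Prod.snd this
        simp only at h1 h2
        rw [h1, h2]
    _ = ∑ x ∈ (MN F D ×ˢ MN F D).image z, B (x.1.1.2 * x.1.2) (x.1.1.2 * x.2) := by
        rw [Finset.sum_image hinj]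
    _ ≤ _ := by
        apply Finset.sum_le_sum_of_subset_of_nonneg
        · intro x hx
          rw [Finset.mem_image] at hx
          obtain ⟨p, hp, rfl⟩ := hx
          exact hz p hp
        · intro x _ _
          exact hB _ _

open Classical in
theorem sum_norm_X1_sq_le (ψ : AddChar F ℂ) (hψ : ψ ≠ 1) {n a D : ℕ} (ha : a ≤ 4 * n) (hD : D < a) :
    ∑ v ∈ MN F (6 * n + 2 + a), ‖X1 ψ n a D v‖ ^ 2 ≤
      ∑ j ∈ Finset.range (D + 1), ∑ d ∈ MN F j, ∑ η ∈ MN F (D - j),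
        ∑ η' ∈ (MN F (D - j)).filter (fun η' => IsCoprime η η'),
          ∑ e ∈ (PN F (a - 2 * n - 2)).erase 0, ∑ e' ∈ (PN F (a - 2 * n - 2)).erase 0,
            ∑ k ∈ PN F (2 * n + a), ∑ k' ∈ PN F (2 * n + a),
              ((cnt n a D j d η η' k e k' e' : ℕ) : ℝ) := by
  set E := (PN F (a - 2 * n - 2)).erase 0 with hE
  set K := PN F (2 * n + a) with hK
  set G : F[X] → F[X] → F[X] → F[X] → ℂ := fun v h e k =>
    if IsCoprime v h ∧ k ∈ kset n a D v h e then (J h v : ℂ) * Phi ψ v h k else 0 with hG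
  -- X1 as a sum of G
  have hX : ∀ v, X1 ψ n a D v = ∑ h ∈ MN F D, ∑ e ∈ E, ∑ k ∈ K, G v h e k := by
    intro v
    unfold X1
    refine Finset.sum_congr rfl (fun h hh => ?_)
    rw [Finset.mul_sum]
    refine Finset.sum_congr rfl (fun e _ => ?_)
    have hks : kset n a D v h e = K.filter (fun k => k ∈ kset n a D v h e) := by
      ext k
      rw [Finset.mem_filter]
      constructor
      · intro hk
        refine ⟨?_, hk⟩
        unfold kset at hk
        exact (Finset.mem_filter.1 hk).1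
      · exact fun hk => hk.2
    rw [Finset.mul_sum, hks, Finset.sum_filter]
    refine Finset.sum_congr rfl (fun k _ => ?_)
    simp only [hG]
    by_cases hc : IsCoprime v h
    · by_cases hk : k ∈ kset n a D v h e <;> simp [hc, hk]
    · have hJ : J h v = 0 := by
        rw [J_eq_zero_iff (monic_of_mem_MN hh)]
        exact fun h1 => hc h1.symm
      simp [hJ]
  -- the double sum over `v`
  have hV : ∀ h e k h' e' k', ∑ v ∈ MN F (6 * n + 2 + a), G v h e k * (starRingEnd ℂ) (G v h' e' k') =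
      ∑ v ∈ vset n a D h k e h' k' e',
        ((J h v : ℂ) * Phi ψ v h k) * (starRingEnd ℂ) ((J h' v : ℂ) * Phi ψ v h' k') := by
    intro h e k h' e' k'
    unfold vset
    rw [Finset.sum_filter]
    refine Finset.sum_congr rfl (fun v _ => ?_)
    simp only [hG]
    by_cases h1 : IsCoprime v h <;> by_cases h2 : IsCoprime v h' <;>
      by_cases h3 : k ∈ kset n a D v h e <;> by_cases h4 : k' ∈ kset n a D v h' e' <;>
      simp [h1, h2, h3, h4]
  set B : F[X] → F[X] → ℝ := fun h h' => ∑ e ∈ E, ∑ e' ∈ E, ∑ k ∈ K, ∑ k' ∈ K,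
    ‖∑ v ∈ vset n a D h k e h' k' e',
        ((J h v : ℂ) * Phi ψ v h k) * (starRingEnd ℂ) ((J h' v : ℂ) * Phi ψ v h' k')‖ with hBdef
  have hB0 : ∀ x y, 0 ≤ B x y := by
    intro x y
    simp only [hBdef]
    exact Finset.sum_nonneg (fun _ _ => Finset.sum_nonneg (fun _ _ => Finset.sum_nonneg
      (fun _ _ => Finset.sum_nonneg (fun _ _ => norm_nonneg _))))
  have h1 : ∑ v ∈ MN F (6 * n + 2 + a), ‖X1 ψ n a D v‖ ^ 2 ≤
      ∑ h ∈ MN F D, ∑ h' ∈ MN F D, B h h' := by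
    set S := MN F D ×ˢ (E ×ˢ K) with hS
    have e1 : ∀ v, X1 ψ n a D v = ∑ x ∈ S, G v x.1 x.2.1 x.2.2 := by
      intro v
      rw [hX, hS, Finset.sum_product]
      refine Finset.sum_congr rfl (fun h _ => ?_)
      rw [Finset.sum_product]
    have e2 : ((∑ v ∈ MN F (6 * n + 2 + a), ‖X1 ψ n a D v‖ ^ 2 : ℝ) : ℂ) =
        ∑ x ∈ S, ∑ x' ∈ S, ∑ v ∈ MN F (6 * n + 2 + a),
          G v x.1 x.2.1 x.2.2 * (starRingEnd ℂ) (G v x'.1 x'.2.1 x'.2.2) := by
      push_cast
      have e3 : ∀ v ∈ MN F (6 * n + 2 + a), ((‖X1 ψ n a D v‖ : ℂ)) ^ 2 =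
          ∑ x ∈ S, ∑ x' ∈ S, G v x.1 x.2.1 x.2.2 * (starRingEnd ℂ) (G v x'.1 x'.2.1 x'.2.2) := by
        intro v _
        rw [← Complex.mul_conj', e1 v, map_sum, Finset.sum_mul_sum]
      rw [Finset.sum_congr rfl e3, Finset.sum_comm]
      refine Finset.sum_congr rfl (fun x _ => ?_)
      rw [Finset.sum_comm]
    have e4 : ∑ v ∈ MN F (6 * n + 2 + a), ‖X1 ψ n a D v‖ ^ 2 =
        ‖((∑ v ∈ MN F (6 * n + 2 + a), ‖X1 ψ n a D v‖ ^ 2 : ℝ) : ℂ)‖ := by
      rw [Complex.norm_real, Real.norm_eq_abs, abs_of_nonneg]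
      exact Finset.sum_nonneg (fun _ _ => by positivity)
    rw [e4, e2]
    refine le_trans (norm_sum_le _ _) ?_
    refine le_trans (Finset.sum_le_sum (fun x _ => norm_sum_le _ _)) ?_
    apply le_of_eq
    -- reorganize the sums
    have e5 : ∀ x ∈ S, ∑ x' ∈ S, ‖∑ v ∈ MN F (6 * n + 2 + a),
          G v x.1 x.2.1 x.2.2 * (starRingEnd ℂ) (G v x'.1 x'.2.1 x'.2.2)‖ =
        ∑ h' ∈ MN F D, ∑ e' ∈ E, ∑ k' ∈ K, ‖∑ v ∈ vset n a D x.1 x.2.2 x.2.1 h' k' e',
          ((J x.1 v : ℂ) * Phi ψ v x.1 x.2.2) *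
            (starRingEnd ℂ) ((J h' v : ℂ) * Phi ψ v h' k')‖ := by
      intro x _
      rw [hS, Finset.sum_product]
      refine Finset.sum_congr rfl (fun h' _ => ?_)
      rw [Finset.sum_product]
      refine Finset.sum_congr rfl (fun e' _ => ?_)
      refine Finset.sum_congr rfl (fun k' _ => ?_)
      rw [hV]
    rw [Finset.sum_congr rfl e5, hS, Finset.sum_product]
    refine Finset.sum_congr rfl (fun h _ => ?_)
    simp only [hBdef]
    rw [Finset.sum_product, Finset.sum_comm (s := MN F D) (t := E)]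
    refine Finset.sum_congr rfl (fun e _ => ?_)
    rw [Finset.sum_comm (s := K) (t := MN F D)]
    refine Finset.sum_congr rfl (fun h' _ => ?_)
    rw [Finset.sum_comm (s := K) (t := E)]
  refine le_trans h1 (le_trans (sum_pairs_le B hB0) ?_)
  refine Finset.sum_le_sum (fun j hj => Finset.sum_le_sum (fun d hd => Finset.sum_le_sum
    (fun η hη => Finset.sum_le_sum (fun η' hη' => Finset.sum_le_sum (fun e he =>
      Finset.sum_le_sum (fun e' he' => Finset.sum_le_sum (fun k hk =>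
        Finset.sum_le_sum (fun k' hk' => ?_))))))))
  rw [Finset.mem_range] at hj
  exact vsum_bound ψ hψ ha hD (by omega) hd hη (Finset.mem_of_mem_filter _ hη') hk hk'
    (Finset.mem_of_mem_erase he) (Finset.mem_of_mem_erase he')

end Pool.Agent.Helper84.AS
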