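import Pool.Agent.Helper84.AS.Defs
import Pool.Agent.Helper84.AS.Expand
import Pool.Agent.Helper84.AS.CountRne
import Pool.Agent.Helper84.AS.CountR0

/-!
Port of `Pool.Agent.Helper31.AR.X1Bound` (project AR, helper31 and others) to the box `deg A ≤ 4 n + 1`,
`deg B ≤ 6 n + 1`. The comment below is that of the original, where `6 n + 1`, `4 n + 1`, `10 n + 2` and
`4 n + a` stand for `6 n + 2`, `4 n + 2`, `10 n + 4` and `4 n + 1 + a` here.
-/

/-!
# AR-46: the second moment of `X1`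

`cnt ≤ cntR .. 0 + ∑_{R ∈ (PN F r).erase 0} cntR .. R` (`r = 2 D + a - 2 j - 6 n - 3`; `0 ∈ PN F r` always). Insert this in `sum_norm_X1_sq_le`
and use `count_R0`, `count_Rne`; `(D + 1) ≤ 4 (a + 1) ^ 4`, `q ^ (6 a - 6) ≤ q ^ (6 a)`.
-/

set_option autoImplicit false

open Polynomial

namespace Pool.Agent.Helper84.AS

open Pool.Agent.Helper31.AR

variable {F : Type} [Field F] [Fintype F]

open Classical in
private lemma cnt_le (n a D j : ℕ) (d η η' k e k' e' : F[X]) :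
    ((cnt n a D j d η η' k e k' e' : ℕ) : ℝ) ≤ ((cntR n a D d η η' k e k' e' 0 : ℕ) : ℝ) +
      ∑ R ∈ (PN F (2 * D + a - 2 * j - 6 * n - 3)).erase 0,
        ((cntR n a D d η η' k e k' e' R : ℕ) : ℝ) := by
  have h0 : (0 : F[X]) ∈ PN F (2 * D + a - 2 * j - 6 * n - 3) := zero_mem_PN _
  rw [Finset.add_sum_erase _ (fun R => ((cntR n a D d η η' k e k' e' R : ℕ) : ℝ)) h0]
  have h1 : cnt n a D j d η η' k e k' e' ≤ ∑ R ∈ PN F (2 * D + a - 2 * j - 6 * n - 3),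
      cntR n a D d η η' k e k' e' R := by
    unfold cnt cntR
    refine le_trans (Finset.card_le_card ?_) Finset.card_biUnion_le
    intro v hv
    rw [Finset.mem_filter] at hv
    obtain ⟨hv1, R, hR, hR2⟩ := hv
    rw [Finset.mem_biUnion]
    exact ⟨R, hR, Finset.mem_filter.2 ⟨hv1, hR2⟩⟩
  exact_mod_cast h1

theorem X1_bound (ψ : AddChar F ℂ) (hψ : ψ ≠ 1) (h2 : (2 : F) ≠ 0) {n a D : ℕ} (ha : a ≤ 4 * n)
    (hD : D < a) :
    ∑ v ∈ MN F (6 * n + 2 + a), ‖X1 ψ n a D v‖ ^ 2 ≤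
      4 * ((a : ℝ) + 1) ^ 4 * (dmax F (12 * n) : ℝ) ^ 4 *
        ((Fintype.card F : ℝ) ^ (6 * a) + (Fintype.card F : ℝ) ^ (6 * n + 4 * a)) := by
  classical
  have hmain : ∑ v ∈ MN F (6 * n + 2 + a), ‖X1 ψ n a D v‖ ^ 2 ≤
      4 * ((a : ℝ) + 1) ^ 4 * (dmax F (12 * n) : ℝ) ^ 4 *
        (Fintype.card F : ℝ) ^ (6 * n + 4 * a) +
      ((D : ℝ) + 1) * (dmax F (12 * n) : ℝ) ^ 4 * (Fintype.card F : ℝ) ^ (6 * a - 5) := by
    refine le_trans (sum_norm_X1_sq_le ψ hψ ha hD) ?_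
    refine le_trans ?_ (add_le_add (count_R0 h2 ha hD) (count_Rne ha hD))
    simp only [← Finset.sum_add_distrib]
    refine Finset.sum_le_sum (fun j _ => Finset.sum_le_sum (fun d _ => Finset.sum_le_sum
      (fun η _ => Finset.sum_le_sum (fun η' _ => Finset.sum_le_sum (fun e _ =>
        Finset.sum_le_sum (fun e' _ => Finset.sum_le_sum (fun k _ =>
          Finset.sum_le_sum (fun k' _ => ?_))))))))
    exact cnt_le n a D j d η η' k e k' e'
  refine le_trans hmain ?_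
  have hq : (1 : ℝ) ≤ (Fintype.card F : ℝ) := by
    exact_mod_cast Fintype.card_pos (α := F)
  have h3 : (Fintype.card F : ℝ) ^ (6 * a - 5) ≤ (Fintype.card F : ℝ) ^ (6 * a) :=
    pow_le_pow_right₀ hq (by omega)
  have h4 : ((D : ℝ) + 1) ≤ 4 * ((a : ℝ) + 1) ^ 4 := by
    have h5 : (D : ℝ) ≤ a := by exact_mod_cast hD.le
    have h6 : (0 : ℝ) ≤ a := Nat.cast_nonneg _
    have h7 : (a : ℝ) + 1 ≤ ((a : ℝ) + 1) ^ 4 := by
      have : (1 : ℝ) ≤ (a : ℝ) + 1 := by linarith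
      calc (a : ℝ) + 1 = ((a : ℝ) + 1) ^ 1 := by ring
        _ ≤ _ := pow_le_pow_right₀ this (by norm_num)
    linarith
  have h5 : ((D : ℝ) + 1) * (dmax F (12 * n) : ℝ) ^ 4 * (Fintype.card F : ℝ) ^ (6 * a - 5) ≤
      4 * ((a : ℝ) + 1) ^ 4 * (dmax F (12 * n) : ℝ) ^ 4 * (Fintype.card F : ℝ) ^ (6 * a) := by
    gcongr
  linarith

end Pool.Agent.Helper84.AS
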