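import Pool.Agent.Helper31.AR.D1Defs
import Pool.Agent.Helper31.AR.FrobDefs

/-!
# Project AS: definitions for the box `deg A ≤ 4 n + 1`, `deg B ≤ 6 n + 1` (no sorry)

The same as in project AR with `m = 6 n + 2 + a` in place of `6 n + 1 + a` and `4 n + 1 + a` in place of
`4 n + a`.
-/

set_option autoImplicit false

open Polynomial

namespace Pool.Agent.Helper84.AS

open Pool.Agent.Helper31.AR

variable {F : Type} [Field F] [Fintype F]

open Classical in
/-- The `k` of degree `< 2 n + a` with `h ∣ k ^ 2 - v e` and `deg (k ^ 2 - v e) < 4 n + 1 + a + D`. -/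
noncomputable def kset (n a D : ℕ) (v h e : F[X]) : Finset F[X] :=
  (PN F (2 * n + a)).filter (fun k => h ∣ k ^ 2 - v * e ∧
    (k ^ 2 - v * e).degree < ((4 * n + 1 + a + D : ℕ) : WithBot ℕ))

/-- The part `e = 0` of `XS`. -/
noncomputable def X0 (ψ : AddChar F ℂ) (n a D : ℕ) (v : F[X]) : ℂ :=
  ∑ h ∈ MN F D, (J h v : ℂ) * ∑ k ∈ kset n a D v h 0, Phi ψ v h k

open Classical in
/-- The part `e ≠ 0` of `XS`. -/
noncomputable def X1 (ψ : AddChar F ℂ) (n a D : ℕ) (v : F[X]) : ℂ :=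
  ∑ h ∈ MN F D, (J h v : ℂ) *
    ∑ e ∈ (PN F (a - 2 * n - 2)).erase 0, ∑ k ∈ kset n a D v h e, Phi ψ v h k

open Classical in
/-- The `v` for which `k`, `k'` occur in the sets of `(h, e)`, `(h', e')`. -/
noncomputable def vset (n a D : ℕ) (h k e h' k' e' : F[X]) : Finset F[X] :=
  (MN F (6 * n + 2 + a)).filter (fun v => IsCoprime v h ∧ IsCoprime v h' ∧
    k ∈ kset n a D v h e ∧ k' ∈ kset n a D v h' e')

open Classical in
/-- The number of `v` with the residue condition for `R`. -/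
noncomputable def cntR (n a D : ℕ) (d η η' k e k' e' R : F[X]) : ℕ :=
  ((vset n a D (d * η) k e (d * η') k' e').filter
    (fun v => d * η * η' ∣ v ^ 2 * R - (k ^ 3 * η' ^ 2 - k' ^ 3 * η ^ 2))).card

open Classical in
/-- The number of `v` with the residue condition for some `R` of small degree. -/
noncomputable def cnt (n a D j : ℕ) (d η η' k e k' e' : F[X]) : ℕ :=
  ((vset n a D (d * η) k e (d * η') k' e').filter
    (fun v => ∃ R ∈ PN F (2 * D + a - 2 * j - 6 * n - 3),
      d * η * η' ∣ v ^ 2 * R - (k ^ 3 * η' ^ 2 - k' ^ 3 * η ^ 2))).card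

/-- The Weierstrass equation `y ^ 2 = x ^ 3 + A x + B` is minimal at all finite places of `F(t)`. -/
def FinMin (A B : F[X]) : Prop := ∀ d : F[X], ¬ IsUnit d → ¬ (d ^ 4 ∣ A ∧ d ^ 6 ∣ B)

variable (F) in
open Classical in
/-- The pairs `(A, B)` with `deg A ≤ 4 n + 1`, `deg B ≤ 6 n + 1` which are not of the form
`(a d ^ 4, b d ^ 6)`. -/
noncomputable def adm (n : ℕ) : Finset (F[X] × F[X]) :=
  (PN F (4 * n + 2) ×ˢ PN F (6 * n + 2)).filter (fun p => ¬ Const p.1 p.2)

end Pool.Agent.Helper84.AS
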